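import Pool.Agent.K7.H75.DP.SL

/-! # The number of `n` at which a combination of translates of `w` is small -/

set_option autoImplicit false

namespace Pool.Agent.K7.H75.DP

open Filter Topology Polynomial

/-- one short interval -/
lemma local_count {k : ℕ} (β : Fin k → ℝ) (hβ : Function.Injective β) : ∃ c z₀ K : ℝ, 0 < c ∧ 1 ≤ z₀ ∧
    0 < K ∧ ∀ (C : Fin k → ℝ), (∀ j, |C j| ≤ 1) → (∃ j, |C j| = 1) →
    ∀ (Y ε s : ℝ) (S : ℕ) (F : Finset ℕ) (Z : ℕ → ℝ), 0 < s → s ≤ 2 →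
    (∀ n ∈ F, z₀ ≤ Z n ∧ Z n ≤ Y) → (∀ n ∈ F, |∑ j, C j * ww (Z n + β j)| ≤ ε) →
    (∀ n ∈ F, ∀ n' ∈ F, |Z n - Z n'| ≤ c / (K * Y ^ (2 * k))) →
    (∀ n ∈ F, ∀ n' ∈ F, n + S ≤ n' → Z n + s ≤ Z n') →
    ε * (2 / s) ^ k ≤ c / (4 * Y ^ (2 * k)) → F.card ≤ 2 ^ k * S := by
  obtain ⟨c, z₀, hc, hz₀, hjet⟩ := jets β hβ
  obtain ⟨z₁, hz₁1, hz₁⟩ := W_bound (k + 1) one_pos
  obtain ⟨K₂, hK₂⟩ : ∃ K₂ : ℝ, K₂ = (k.factorial : ℝ) + 1 := ⟨_, rfl⟩
  have hK₂0 : 0 < K₂ := by rw [hK₂]; positivity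
  have hWb : ∀ y, z₁ ≤ y → ∀ s ≤ k, |W s y| ≤ K₂ := by
    intro y hy s hs
    have hy1 : 1 ≤ y := by linarith
    have h1 := hz₁ y hy s (by omega)
    have h2 : |y ^ (s + 1) * W s y| ≤ K₂ := by
      have h3 : |(-1 : ℝ) ^ s * s.factorial| = s.factorial := by
        rw [abs_mul, abs_pow, abs_neg, abs_one, one_pow, one_mul, Nat.abs_cast]
      have h4 : (s.factorial : ℝ) ≤ (k.factorial : ℝ) := by
        exact_mod_cast Nat.factorial_le hs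
      have h5 := abs_sub_abs_le_abs_sub (y ^ (s + 1) * W s y) ((-1) ^ s * s.factorial)
      rw [h3] at h5
      rw [hK₂]
      linarith
    rw [abs_mul, abs_of_pos (by positivity : 0 < y ^ (s + 1))] at h2
    exact (le_mul_of_one_le_left (abs_nonneg _) (one_le_pow₀ hy1)).trans h2
  obtain ⟨b, hb⟩ : ∃ b : ℝ, b = 1 + ∑ j, |β j| := ⟨_, rfl⟩
  have hbj : ∀ j, |β j| ≤ b := fun j => by
    rw [hb]
    have := Finset.single_le_sum (f := fun j => |β j|) (fun j _ => abs_nonneg _) (Finset.mem_univ j)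
    linarith
  have hb1 : 1 ≤ b := by
    rw [hb]
    have : 0 ≤ ∑ j, |β j| := Finset.sum_nonneg fun j _ => abs_nonneg _
    linarith
  obtain ⟨K, hK⟩ : ∃ K : ℝ, K = 4 * (k * K₂ + 1) := ⟨_, rfl⟩
  have hK0 : 0 < K := by rw [hK]; positivity
  refine ⟨c, z₀ + z₁ + b, K, hc, by linarith, hK0,
    fun C hC1 hC2 Y ε s S F Z hs hs2 hF hFε hFℓ hFs hε => ?_⟩
  by_contra hcon
  push Not at hcon
  have h2k : 1 ≤ 2 ^ k := Nat.one_le_two_pow
  obtain ⟨y, hy1, hy2⟩ := spaced F S (2 ^ k)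
    (lt_of_le_of_lt (Nat.mul_le_mul_right S (Nat.sub_le _ _)) hcon)
  have hy0 : y 0 ∈ F := hy1 0 (by omega)
  obtain ⟨zs, hzs⟩ : ∃ zs : ℝ, zs = Z (y 0) := ⟨_, rfl⟩
  obtain ⟨hzs1, hzs2⟩ : z₀ + z₁ + b ≤ zs ∧ zs ≤ Y := by rw [hzs]; exact hF _ hy0
  have hY0 : 0 < Y := by linarith
  have hYk : 0 < Y ^ (2 * k) := by positivity
  obtain ⟨μ, hμ⟩ : ∃ μ : ℝ, μ = c / (2 * Y ^ (2 * k)) := ⟨_, rfl⟩
  have hμ0 : 0 < μ := by rw [hμ]; positivity
  -- the derivatives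
  obtain ⟨G, hG⟩ : ∃ G : ℕ → ℝ → ℝ, ∀ s, G s = fun z => ∑ j, C j * W s (z + β j) := ⟨_, fun s => rfl⟩
  have hGd : ∀ s x, HasDerivAt (G s) (G (s + 1) x) x := by
    intro s x
    rw [hG, hG]
    exact HasDerivAt.fun_sum fun j _ =>
      ((W_deriv s (x + β j)).comp_add_const x (β j)).const_mul (C j)
  obtain ⟨r, hr, hrμ⟩ : ∃ r, r < k ∧ μ < |G r zs| := by
    by_contra hcon2
    push Not at hcon2
    obtain ⟨j, hj⟩ := hC2
    have h1 := hjet zs C μ (by linarith) (fun r hr => by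
      have := hcon2 r hr
      rwa [hG] at this) j
    rw [hj, mul_one] at h1
    have h2 : μ * zs ^ (2 * k) ≤ c / 2 := by
      have h3 : zs ^ (2 * k) ≤ Y ^ (2 * k) := pow_le_pow_left₀ (by linarith) hzs2 _
      calc μ * zs ^ (2 * k) ≤ μ * Y ^ (2 * k) := mul_le_mul_of_nonneg_left h3 hμ0.le
        _ = c / 2 := by rw [hμ]; field_simp
    linarith
  have h2r : 2 ^ r ≤ 2 ^ k := Nat.pow_le_pow_right (by norm_num) hr.le
  have h2r1 : 1 ≤ 2 ^ r := Nat.one_le_two_pow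
  obtain ⟨x, hx1, hx2, hx3⟩ := rmvt r G hGd ε s (fun i => Z (y i)) hs
    (fun i hi => hFs _ (hy1 i (by omega)) _ (hy1 (i + 1) (by omega)) (hy2 i (by omega)))
    (fun i hi => by
      have h1 := hFε (y i) (hy1 i (by omega))
      rw [hG]
      simpa [W_zero] using h1)
  rw [← hzs] at hx1
  have hxz : |x - zs| ≤ c / (K * Y ^ (2 * k)) := by
    have h1 := hFℓ _ (hy1 (2 ^ r - 1) (by omega)) _ hy0
    rw [← hzs] at h1
    rw [abs_of_nonneg (by linarith)]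
    exact (by linarith [le_abs_self (Z (y (2 ^ r - 1)) - zs)] :
      x - zs ≤ |Z (y (2 ^ r - 1)) - zs|).trans h1
  have hlip : |G r x - G r zs| ≤ (k * K₂) * |x - zs| := by
    have h1 := (convex_Ici zs).norm_image_sub_le_of_norm_hasDerivWithin_le (f := G r) (f' := G (r + 1))
      (C := k * K₂) (fun t _ => (hGd r t).hasDerivWithinAt) (fun t ht => by
        rw [Real.norm_eq_abs, hG]
        refine (Finset.abs_sum_le_sum_abs _ _).trans ?_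
        calc ∑ j, |C j * W (r + 1) (t + β j)| ≤ ∑ j : Fin k, K₂ := by
              refine Finset.sum_le_sum fun j _ => ?_
              rw [abs_mul]
              have ht' : zs ≤ t := ht
              have h2 := (abs_le.1 (hbj j)).1
              calc |C j| * |W (r + 1) (t + β j)| ≤ 1 * K₂ :=
                    mul_le_mul (hC1 j) (hWb _ (by linarith) _ (by omega)) (abs_nonneg _) (by norm_num)
                _ = K₂ := one_mul _
          _ = k * K₂ := by rw [Finset.sum_const, Finset.card_univ, Fintype.card_fin, nsmul_eq_mul])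
      (Set.self_mem_Ici) (show x ∈ Set.Ici zs from hx1)
    rwa [Real.norm_eq_abs, Real.norm_eq_abs] at h1
  have hlip2 : (k * K₂) * |x - zs| ≤ μ / 2 := by
    have h1 : (k * K₂) * |x - zs| ≤ (K / 4) * (c / (K * Y ^ (2 * k))) := by
      apply mul_le_mul _ hxz (abs_nonneg _) (by positivity)
      rw [hK]; linarith
    refine h1.trans (le_of_eq ?_)
    rw [hμ]
    field_simp
    norm_num
  have h5 : |G r x| ≤ μ / 2 := by
    refine hx3.trans ?_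
    have hε0 : 0 ≤ ε := (abs_nonneg _).trans (hFε _ hy0)
    have h6 : (2 / s) ^ r ≤ (2 / s) ^ k :=
      pow_le_pow_right₀ (by rw [le_div_iff₀ hs]; linarith) hr.le
    calc ε * (2 / s) ^ r ≤ ε * (2 / s) ^ k := mul_le_mul_of_nonneg_left h6 hε0
      _ ≤ c / (4 * Y ^ (2 * k)) := hε
      _ = μ / 2 := by rw [hμ]; field_simp; norm_num
  have h7 := abs_sub_abs_le_abs_sub (G r zs) (G r x)
  rw [abs_sub_comm] at h7
  linarith

/-- all the short intervals together -/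
lemma glob_count {k : ℕ} (β : Fin k → ℝ) (hβ : Function.Injective β) : ∃ c z₀ K : ℝ, 0 < c ∧ 1 ≤ z₀ ∧
    0 < K ∧ ∀ (C : Fin k → ℝ), (∀ j, |C j| ≤ 1) → (∃ j, |C j| = 1) →
    ∀ (Y ε s : ℝ) (S : ℕ) (F : Finset ℕ) (Z : ℕ → ℝ), 0 ≤ Y → 0 < s → s ≤ 2 →
    (∀ n ∈ F, z₀ ≤ Z n ∧ Z n ≤ Y) → (∀ n ∈ F, |∑ j, C j * ww (Z n + β j)| ≤ ε) →
    (∀ n ∈ F, ∀ n' ∈ F, n + S ≤ n' → Z n + s ≤ Z n') →
    ε * (2 / s) ^ k ≤ c / (4 * Y ^ (2 * k)) →
    (F.card : ℝ) ≤ 2 ^ k * S * (K / c * Y ^ (2 * k + 1) + 1) := by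
  classical
  obtain ⟨c, z₀, K, hc, hz₀, hK, hloc⟩ := local_count β hβ
  refine ⟨c, z₀, K, hc, hz₀, hK, fun C hC1 hC2 Y ε s S F Z hYY hs hs2 hF hFε hFs hε => ?_⟩
  rcases F.eq_empty_or_nonempty with rfl | ⟨n0, hn0⟩
  · rw [Finset.card_empty, Nat.cast_zero]
    positivity
  have hY0 : 0 < Y := by linarith [(hF n0 hn0).1, (hF n0 hn0).2]
  obtain ⟨ℓ, hℓ⟩ : ∃ ℓ : ℝ, ℓ = c / (K * Y ^ (2 * k)) := ⟨_, rfl⟩
  have hℓ0 : 0 < ℓ := by rw [hℓ]; positivity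
  have hcard := Finset.card_le_mul_card_image (f := fun n => ⌊Z n / ℓ⌋₊) F (2 ^ k * S) (fun a _ => by
    refine hloc C hC1 hC2 Y ε s S _ Z hs hs2 (fun n hn => hF n (Finset.mem_filter.1 hn).1)
      (fun n hn => hFε n (Finset.mem_filter.1 hn).1) (fun n hn n' hn' => ?_)
      (fun n hn n' hn' => hFs n (Finset.mem_filter.1 hn).1 n' (Finset.mem_filter.1 hn').1) hε
    obtain ⟨h1, h2⟩ := Finset.mem_filter.1 hn
    obtain ⟨h1', h2'⟩ := Finset.mem_filter.1 hn'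
    have hz := (hF n h1).1
    have hz' := (hF n' h1').1
    have a1 := Nat.floor_le (show 0 ≤ Z n / ℓ from div_nonneg (by linarith) hℓ0.le)
    have a2 := Nat.lt_floor_add_one (Z n / ℓ)
    have a3 := Nat.floor_le (show 0 ≤ Z n' / ℓ from div_nonneg (by linarith) hℓ0.le)
    have a4 := Nat.lt_floor_add_one (Z n' / ℓ)
    rw [h2] at a1 a2
    rw [h2'] at a3 a4
    rw [le_div_iff₀ hℓ0] at a1 a3
    rw [div_lt_iff₀ hℓ0] at a2 a4
    rw [← hℓ, abs_le]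
    constructor <;> nlinarith)
  have himg : (F.image (fun n => ⌊Z n / ℓ⌋₊)).card ≤ ⌊Y / ℓ⌋₊ + 1 := by
    have h1 : F.image (fun n => ⌊Z n / ℓ⌋₊) ⊆ Finset.range (⌊Y / ℓ⌋₊ + 1) := by
      intro a ha
      obtain ⟨n, hn, rfl⟩ := Finset.mem_image.1 ha
      rw [Finset.mem_range, Nat.lt_succ_iff]
      exact Nat.floor_le_floor (div_le_div_of_nonneg_right (hF n hn).2 hℓ0.le)
    have h2 := Finset.card_le_card h1
    rwa [Finset.card_range] at h2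
  have himgr : ((F.image (fun n => ⌊Z n / ℓ⌋₊)).card : ℝ) ≤ Y / ℓ + 1 := by
    have h1 : ((F.image (fun n => ⌊Z n / ℓ⌋₊)).card : ℝ) ≤ ⌊Y / ℓ⌋₊ + 1 := by exact_mod_cast himg
    have h2 := Nat.floor_le (show 0 ≤ Y / ℓ by positivity)
    linarith
  have hY2 : Y / ℓ = K / c * Y ^ (2 * k + 1) := by
    rw [hℓ, pow_succ]
    field_simp
  rw [hY2] at himgr
  calc (F.card : ℝ) ≤ ((2 ^ k * S * (F.image (fun n => ⌊Z n / ℓ⌋₊)).card : ℕ) : ℝ) := by exact_mod_cast hcard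
    _ = 2 ^ k * S * ((F.image (fun n => ⌊Z n / ℓ⌋₊)).card : ℝ) := by push_cast; rfl
    _ ≤ _ := mul_le_mul_of_nonneg_left himgr (by positivity)

end Pool.Agent.K7.H75.DP
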