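import Pool.Agent.K7.H75.DP.CO

/-! # Power saving for the number of `n` at which a combination of translates of `w` is small -/

set_option autoImplicit false

namespace Pool.Agent.K7.H75.DP

open Filter Topology

lemma ev_log (A : ℝ) (p : ℕ) {e : ℝ} (he : 0 < e) : ∀ᶠ x : ℝ in atTop, A * Real.log x ^ p ≤ x ^ e := by
  have h1 := (isLittleO_log_rpow_rpow_atTop (p : ℝ) he).def (show 0 < 1 / (|A| + 1) by positivity)
  filter_upwards [h1, eventually_ge_atTop (1 : ℝ)] with x hx hx1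
  rw [Real.rpow_natCast, Real.norm_eq_abs, Real.norm_eq_abs, abs_of_nonneg (by positivity : 0 ≤ x ^ e)] at hx
  have h2 : 0 ≤ x ^ e := by positivity
  calc A * Real.log x ^ p ≤ |A| * |Real.log x ^ p| := by
        rw [← abs_mul]; exact le_abs_self _
    _ ≤ |A| * (1 / (|A| + 1) * x ^ e) := mul_le_mul_of_nonneg_left hx (abs_nonneg _)
    _ = |A| / (|A| + 1) * x ^ e := by ring
    _ ≤ 1 * x ^ e := by
        apply mul_le_mul_of_nonneg_right _ h2
        rw [div_le_one (by positivity)]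
        linarith
    _ = x ^ e := one_mul _

/-- **power saving** -/
theorem count {k : ℕ} (β : Fin k → ℝ) (hβ : Function.Injective β) {d κ : ℝ} (hd : 0 < d) (hκ : 0 < κ) :
    ∃ τ : ℝ, 0 < τ ∧ ∀ᶠ N : ℕ in atTop, ∀ C : Fin k → ℝ, (∀ j, |C j| ≤ 1) → (∃ j, |C j| = 1) →
    ∀ F : Finset ℕ, (∀ n ∈ F, Real.sqrt N ≤ n ∧ (n : ℝ) ≤ N) →
    (∀ n ∈ F, |∑ j, C j * ww (d * Real.log n - 1 + β j)| ≤ (N : ℝ) ^ (-κ)) →
    (F.card : ℝ) ≤ (N : ℝ) ^ (1 - τ) := by
  obtain ⟨c, z₀, K, hc, hz₀, hK, hglob⟩ := glob_count β hβ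
  obtain ⟨κ', hκ'⟩ : ∃ κ' : ℝ, κ' = min κ 1 := ⟨_, rfl⟩
  have hκ'0 : 0 < κ' := by rw [hκ']; exact lt_min hκ one_pos
  have hκ'1 : κ' ≤ 1 := by rw [hκ']; exact min_le_right _ _
  have hκ'κ : κ' ≤ κ := by rw [hκ']; exact min_le_left _ _
  have hk1 : (0 : ℝ) < k + 1 := by positivity
  have hkr : (0 : ℝ) ≤ k := Nat.cast_nonneg _
  obtain ⟨ρ, hρ⟩ : ∃ ρ : ℝ, ρ = κ' / (2 * (k + 1)) := ⟨_, rfl⟩
  have hρ0 : 0 < ρ := by rw [hρ]; positivity
  have hρk : (k : ℝ) * ρ ≤ κ' / 2 := by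
    have : (k + 1) * ρ = κ' / 2 := by rw [hρ]; field_simp
    nlinarith
  have hρ1 : ρ ≤ 1 := by
    rw [hρ, div_le_one (by positivity)]
    nlinarith
  refine ⟨ρ / 2, by positivity, ?_⟩
  have hev : ∀ᶠ x : ℝ in atTop, z₀ ≤ d / 2 * Real.log x - 1 ∧
      4 * (2 / d) ^ k * d ^ (2 * k) / c * Real.log x ^ (2 * k) ≤ x ^ (κ' / 2) ∧
      2 * (2 ^ (k + 1) * (K / c * d ^ (2 * k + 1))) * Real.log x ^ (2 * k + 1) ≤ x ^ (ρ / 2) ∧
      2 * 2 ^ (k + 1) * Real.log x ^ 0 ≤ x ^ (ρ / 2) ∧ d / 2 * Real.log x ^ 0 ≤ x ^ ρ := by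
    refine Filter.Eventually.and ?_ (Filter.Eventually.and (ev_log _ _ (by positivity))
      (Filter.Eventually.and (ev_log _ _ (by positivity)) (Filter.Eventually.and
        (ev_log _ _ (by positivity)) (ev_log _ _ hρ0))))
    have h1 : Tendsto (fun x : ℝ => d / 2 * Real.log x) atTop atTop :=
      Real.tendsto_log_atTop.const_mul_atTop (by positivity)
    filter_upwards [h1.eventually_ge_atTop (z₀ + 1)] with x hx
    linarith
  filter_upwards [tendsto_natCast_atTop_atTop.eventually hev, eventually_ge_atTop 3] with N hN hN3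
  obtain ⟨e1, e2, e3, e4, e5⟩ := hN
  intro C hC1 hC2 F hF hFε
  have hNr : (3 : ℝ) ≤ N := by exact_mod_cast hN3
  have hN0 : (0 : ℝ) < N := by linarith
  have hN1 : (1 : ℝ) ≤ N := by linarith
  have hlogN : 0 < Real.log N := Real.log_pos (by linarith)
  obtain ⟨S, hS⟩ : ∃ S : ℕ, S = ⌈(N : ℝ) ^ (1 - ρ)⌉₊ := ⟨_, rfl⟩
  have hSge : (N : ℝ) ^ (1 - ρ) ≤ S := by rw [hS]; exact Nat.le_ceil _
  have hSle : (S : ℝ) ≤ 2 * (N : ℝ) ^ (1 - ρ) := by
    have h1 : 1 ≤ (N : ℝ) ^ (1 - ρ) := Real.one_le_rpow hN1 (by linarith)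
    have h2 := (Nat.ceil_lt_add_one (show 0 ≤ (N : ℝ) ^ (1 - ρ) by positivity)).le
    rw [← hS] at h2
    linarith
  have hs0 : 0 < d * (N : ℝ) ^ (-ρ) := by positivity
  have hNρ : (N : ℝ) ^ (-ρ) * (N : ℝ) ^ ρ = 1 := by
    rw [← Real.rpow_add hN0]; simp
  have hmain := hglob C hC1 hC2 (d * Real.log N) ((N : ℝ) ^ (-κ')) (d * (N : ℝ) ^ (-ρ)) S F
    (fun n => d * Real.log n - 1) (by positivity) hs0
    (by
      rw [pow_zero, mul_one] at e5
      have h1 : 0 < (N : ℝ) ^ (-ρ) := by positivity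
      have h2 := mul_le_mul_of_nonneg_left e5 h1.le
      rw [hNρ] at h2
      linarith)
    (fun n hn => by
      obtain ⟨h1, h2⟩ := hF n hn
      have hsq : 0 < Real.sqrt N := Real.sqrt_pos.2 hN0
      have h3 := Real.log_le_log hsq h1
      rw [Real.log_sqrt hN0.le] at h3
      have h4 := Real.log_le_log (lt_of_lt_of_le hsq h1) h2
      constructor
      · have := mul_le_mul_of_nonneg_left h3 hd.le
        linarith
      · have := mul_le_mul_of_nonneg_left h4 hd.le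
        linarith)
    (fun n hn => (hFε n hn).trans (Real.rpow_le_rpow_of_exponent_le hN1 (by linarith)))
    (fun n hn n' hn' hnn => by
      obtain ⟨h1, h2⟩ := hF n hn
      obtain ⟨h1', h2'⟩ := hF n' hn'
      have hsq : 0 < Real.sqrt N := Real.sqrt_pos.2 hN0
      have hn0 : (0 : ℝ) < n := lt_of_lt_of_le hsq h1
      have hn'0 : (0 : ℝ) < n' := lt_of_lt_of_le hsq h1'
      have h3 := Real.log_le_sub_one_of_pos (show (0 : ℝ) < n / n' by positivity)
      rw [Real.log_div hn0.ne' hn'0.ne'] at h3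
      have h4 : (n : ℝ) + S ≤ n' := by exact_mod_cast hnn
      have h5 : (N : ℝ) ^ (-ρ) ≤ 1 - n / n' := by
        have e6 : 1 - (n : ℝ) / n' = (n' - n) / n' := by field_simp
        rw [e6, le_div_iff₀ hn'0]
        calc (N : ℝ) ^ (-ρ) * n' ≤ (N : ℝ) ^ (-ρ) * N := mul_le_mul_of_nonneg_left h2' (by positivity)
          _ = (N : ℝ) ^ (1 - ρ) := by
              rw [← Real.rpow_add_one hN0.ne']
              congr 1
              ring
          _ ≤ n' - n := by linarith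
      have h6 := mul_le_mul_of_nonneg_left h5 hd.le
      have h7 : d * (1 - n / n') ≤ d * (Real.log n' - Real.log n) :=
        mul_le_mul_of_nonneg_left (by linarith) hd.le
      linarith)
    (by
      have h1 : (2 / (d * (N : ℝ) ^ (-ρ))) ^ k = (2 / d) ^ k * (N : ℝ) ^ (ρ * k) := by
        have h2 : 2 / (d * (N : ℝ) ^ (-ρ)) = 2 / d * (N : ℝ) ^ ρ := by
          rw [Real.rpow_neg hN0.le]
          field_simp
        rw [h2, mul_pow, ← Real.rpow_natCast ((N : ℝ) ^ ρ) k, ← Real.rpow_mul hN0.le]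
      rw [h1, le_div_iff₀ (by positivity)]
      have h3 : (N : ℝ) ^ (ρ * k) ≤ (N : ℝ) ^ (κ' / 2) :=
        Real.rpow_le_rpow_of_exponent_le hN1 (by linarith)
      have h4 : (N : ℝ) ^ (-κ') * (N : ℝ) ^ (κ' / 2) * (N : ℝ) ^ (κ' / 2) = 1 := by
        rw [← Real.rpow_add hN0, ← Real.rpow_add hN0]
        have h5 : -κ' + κ' / 2 + κ' / 2 = 0 := by ring
        rw [h5, Real.rpow_zero]
      rw [div_mul_eq_mul_div, div_le_iff₀ hc] at e2
      calc (N : ℝ) ^ (-κ') * ((2 / d) ^ k * (N : ℝ) ^ (ρ * k)) * (4 * (d * Real.log N) ^ (2 * k))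
          = (N : ℝ) ^ (-κ') * (N : ℝ) ^ (ρ * k) * (4 * (2 / d) ^ k * d ^ (2 * k) * Real.log N ^ (2 * k)) := by
            rw [mul_pow]; ring
        _ ≤ (N : ℝ) ^ (-κ') * (N : ℝ) ^ (κ' / 2) * ((N : ℝ) ^ (κ' / 2) * c) := by
            apply mul_le_mul _ e2 (by positivity) (by positivity)
            exact mul_le_mul_of_nonneg_left h3 (by positivity)
        _ = ((N : ℝ) ^ (-κ') * (N : ℝ) ^ (κ' / 2) * (N : ℝ) ^ (κ' / 2)) * c := by ring
        _ = c := by rw [h4, one_mul])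
  refine hmain.trans ?_
  rw [pow_zero, mul_one] at e4
  have h8 : K / c * (d * Real.log N) ^ (2 * k + 1) + 1 ≤ (N : ℝ) ^ (ρ / 2) / 2 ^ (k + 1) := by
    rw [le_div_iff₀ (by positivity), mul_pow]
    nlinarith
  calc 2 ^ k * (S : ℝ) * (K / c * (d * Real.log N) ^ (2 * k + 1) + 1)
      ≤ 2 ^ k * (2 * (N : ℝ) ^ (1 - ρ)) * ((N : ℝ) ^ (ρ / 2) / 2 ^ (k + 1)) := by
        apply mul_le_mul _ h8 (by positivity) (by positivity)
        exact mul_le_mul_of_nonneg_left hSle (by positivity)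
    _ = (N : ℝ) ^ (1 - ρ) * (N : ℝ) ^ (ρ / 2) := by
        rw [pow_succ]
        field_simp
    _ = (N : ℝ) ^ (1 - ρ / 2) := by
        rw [← Real.rpow_add hN0]
        congr 1
        ring

end Pool.Agent.K7.H75.DP
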