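import Pool.Agent.K7.H75.DP.GA

/-! # The ordinates at places near powers -/

set_option autoImplicit false

namespace Pool.Agent.K7.H75.DP

open Filter Topology
open SG (NZ ord ord_le_iff)

lemma fin_min {ι : Type*} [Fintype ι] (f : ι → ℝ) (hf : ∀ i, 0 < f i) : ∃ g : ℝ, 0 < g ∧ g ≤ 1 ∧ ∀ i, g ≤ f i := by
  have h0 : 0 ≤ ∑ i, 1 / f i := Finset.sum_nonneg fun i _ => by
    have := hf i
    positivity
  refine ⟨(1 + ∑ i, 1 / f i)⁻¹, by positivity, ?_, fun i => ?_⟩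
  · apply inv_le_one_of_one_le₀
    linarith
  · have h1 : 1 / f i ≤ 1 + ∑ i, 1 / f i := by
      have := Finset.single_le_sum (f := fun i => 1 / f i) (fun i _ => by
        have := hf i
        positivity) (Finset.mem_univ i)
      linarith
    have h2 := hf i
    rw [inv_le_comm₀ (by positivity) h2]
    rwa [one_div] at h1

/-- `count` for an arbitrary finite index set -/
theorem count_fin {ι : Type*} [Fintype ι] (β : ι → ℝ) (hβ : Function.Injective β) {d κ : ℝ} (hd : 0 < d)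
    (hκ : 0 < κ) :
    ∃ τ : ℝ, 0 < τ ∧ ∀ᶠ N : ℕ in atTop, ∀ C : ι → ℝ, (∀ j, |C j| ≤ 1) → (∃ j, |C j| = 1) →
    ∀ F : Finset ℕ, (∀ n ∈ F, Real.sqrt N ≤ n ∧ (n : ℝ) ≤ N) →
    (∀ n ∈ F, |∑ j, C j * ww (d * Real.log n - 1 + β j)| ≤ (N : ℝ) ^ (-κ)) →
    (F.card : ℝ) ≤ (N : ℝ) ^ (1 - τ) := by
  obtain ⟨τ, hτ, h⟩ := count (k := Fintype.card ι) (β ∘ (Fintype.equivFin ι).symm)
    (hβ.comp (Equiv.injective _)) hd hκ
  refine ⟨τ, hτ, ?_⟩
  filter_upwards [h] with N hN C hC1 hC2 F hF hFε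
  refine hN (C ∘ (Fintype.equivFin ι).symm) (fun j => hC1 _) ?_ F hF fun n hn => ?_
  · obtain ⟨j, hj⟩ := hC2
    exact ⟨Fintype.equivFin ι j, by simpa using hj⟩
  · have h1 := hFε n hn
    rw [← Equiv.sum_comp (Fintype.equivFin ι).symm] at h1
    exact h1

/-- one place -/
lemma place {α d κ B : ℝ} (hα : 0 < α) (hd : 0 < d) (hκ : 0 < κ) (hκd : κ ≤ d / 2) (hB : 0 ≤ B) :
    ∃ A : ℝ, 0 < A ∧ ∀ᶠ n : ℕ in atTop, ∀ m : ℕ, |(m : ℝ) - α * (n : ℝ) ^ d| ≤ B * (n : ℝ) ^ (d - κ) →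
      |ord m - 2 * Real.pi * α * (n : ℝ) ^ d * ww (d * Real.log n - 1 + Real.log α)| ≤ A * (n : ℝ) ^ (d - κ) ∧
      |ord m| ≤ A * (n : ℝ) ^ d := by
  obtain ⟨K, m₀, hK, hm₀, hord⟩ := ord_gg
  have hpi := Real.pi_pos
  have hw := ww_pos (-1)
  obtain ⟨L, hL⟩ : ∃ L : ℝ, L = 2 * Real.pi * ww (-1) := ⟨_, rfl⟩
  have hL0 : 0 < L := by rw [hL]; positivity
  obtain ⟨A1, hA1⟩ : ∃ A1 : ℝ, A1 = 1 + L * B := ⟨_, rfl⟩
  have hA10 : 0 < A1 := by rw [hA1]; positivity
  refine ⟨A1 + L * α, by positivity, ?_⟩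
  have hev : ∀ᶠ x : ℝ in atTop, 1 ≤ x ∧
      K * (Real.log (2 * α + 1) + 1) * Real.log x ^ 0 ≤ x ^ (d / 4) ∧
      K * d * Real.log x ^ 1 ≤ x ^ (d / 4) ∧ 2 * Real.log x ^ 0 ≤ x ^ (d / 4) ∧
      (2 * m₀ + 2) / α * Real.log x ^ 0 ≤ x ^ d ∧ 2 * B / α * Real.log x ^ 0 ≤ x ^ κ := by
    refine Filter.Eventually.and (eventually_ge_atTop _) (Filter.Eventually.and (ev_log _ _ (by positivity))
      (Filter.Eventually.and (ev_log _ _ (by positivity)) (Filter.Eventually.and (ev_log _ _ (by positivity))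
      (Filter.Eventually.and (ev_log _ _ hd) (ev_log _ _ hκ)))))
  filter_upwards [tendsto_natCast_atTop_atTop.eventually hev] with n hn m hm
  obtain ⟨e0, e1, e2, e3, e4, e5⟩ := hn
  simp only [pow_zero, mul_one, pow_one] at e1 e2 e3 e4 e5
  obtain ⟨x, hx⟩ : ∃ x : ℝ, x = n := ⟨_, rfl⟩
  rw [← hx] at e0 e1 e2 e3 e4 e5 hm ⊢
  have hx0 : 0 < x := by linarith
  have hlogx : 0 ≤ Real.log x := Real.log_nonneg e0
  obtain ⟨M, hM⟩ : ∃ M : ℝ, M = α * x ^ d := ⟨_, rfl⟩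
  rw [← hM] at hm
  have hxd : 0 < x ^ d := by positivity
  have hM0 : 0 < M := by rw [hM]; positivity
  have hm₀r : (1 : ℝ) ≤ m₀ := by exact_mod_cast hm₀
  have hMge : 2 * (m₀ : ℝ) + 2 ≤ M := by
    rw [div_le_iff₀ hα] at e4
    rw [hM]; linarith
  have hdk : x ^ (d - κ) * x ^ κ = x ^ d := by
    rw [← Real.rpow_add hx0]; congr 1; ring
  have hdk0 : 0 < x ^ (d - κ) := by positivity
  have hBM : B * x ^ (d - κ) ≤ M / 2 := by
    rw [div_le_iff₀ hα] at e5
    have h1 := mul_le_mul_of_nonneg_left e5 hdk0.le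
    rw [hM, ← hdk]
    nlinarith
  have hmM := abs_le.1 hm
  have hm1 : (m₀ : ℝ) ≤ m := by linarith [hmM.1]
  have hm2 : (m : ℝ) ≤ 2 * M := by linarith [hmM.2]
  have hmn : m₀ ≤ m := by exact_mod_cast hm1
  have hmr1 : (1 : ℝ) ≤ m := by linarith
  have hlogm : Real.log m ≤ Real.log (2 * α + 1) + d * Real.log x := by
    have h1 : Real.log m ≤ Real.log ((2 * α + 1) * x ^ d) := by
      apply Real.log_le_log (by linarith)
      rw [hM] at hm2
      nlinarith
    rwa [Real.log_mul (by positivity) hxd.ne', Real.log_rpow hx0] at h1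
  have hlog0 : 0 ≤ Real.log (2 * α + 1) := Real.log_nonneg (by linarith)
  have h4 : 0 < x ^ (d / 4) := by positivity
  have hKlog : K * Real.log m ≤ x ^ (d - κ) := by
    have h1 : K * Real.log m ≤ K * (Real.log (2 * α + 1) + d * Real.log x) :=
      mul_le_mul_of_nonneg_left hlogm (by linarith)
    have h2 : K * (Real.log (2 * α + 1) + d * Real.log x) ≤ 2 * x ^ (d / 4) := by nlinarith
    have h3 : 2 * x ^ (d / 4) ≤ x ^ (d / 4) * x ^ (d / 4) := mul_le_mul_of_nonneg_right e3 h4.le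
    have h5 : x ^ (d / 4) * x ^ (d / 4) ≤ x ^ (d - κ) := by
      rw [← Real.rpow_add hx0]
      exact Real.rpow_le_rpow_of_exponent_le e0 (by linarith)
    linarith
  have h6 := hord m hmn
  have h7 := gg_lip (a := M) (b := m) (by linarith) hmr1
  rw [← hL] at h7
  have h8 : gg M = 2 * Real.pi * α * x ^ d * ww (d * Real.log x - 1 + Real.log α) := by
    unfold gg
    rw [hM, Real.log_mul hα.ne' hxd.ne', Real.log_rpow hx0]
    have e : Real.log α + d * Real.log x - 1 = d * Real.log x - 1 + Real.log α := by ring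
    rw [e]
    ring
  have h9 : |ord m - gg M| ≤ A1 * x ^ (d - κ) := by
    have e : ord m - gg M = (ord m - gg m) + (gg m - gg M) := by ring
    rw [e]
    refine (abs_add_le _ _).trans ?_
    have h10 : L * |(m : ℝ) - M| ≤ L * (B * x ^ (d - κ)) := mul_le_mul_of_nonneg_left hm hL0.le
    rw [hA1]
    nlinarith
  have hLα : 0 ≤ L * α * x ^ (d - κ) := by positivity
  constructor
  · rw [← h8]
    linarith
  · have h11 : |gg M| ≤ L * α * x ^ d := by
      have h12 := ww_pos (Real.log M - 1)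
      have h13 : ww (Real.log M - 1) ≤ ww (-1) := ww_anti (by
        have := Real.log_nonneg (by linarith : 1 ≤ M)
        linarith)
      unfold gg
      rw [abs_of_nonneg (by positivity), hL]
      calc 2 * Real.pi * M * ww (Real.log M - 1) ≤ 2 * Real.pi * M * ww (-1) :=
            mul_le_mul_of_nonneg_left h13 (by positivity)
        _ = 2 * Real.pi * ww (-1) * α * x ^ d := by rw [hM]; ring
    have h14 : x ^ (d - κ) ≤ x ^ d := Real.rpow_le_rpow_of_exponent_le e0 (by linarith)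
    have h15 : |ord m| ≤ |ord m - gg M| + |gg M| := by
      have := abs_add_le (ord m - gg M) (gg M)
      rwa [sub_add_cancel] at this
    have h16 : A1 * x ^ (d - κ) ≤ A1 * x ^ d := mul_le_mul_of_nonneg_left h14 hA10.le
    linarith

end Pool.Agent.K7.H75.DP
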