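import Pool.Agent.K7.H75.DP.FA
import Pool.Agent.R846.UL.EvI

/-! # Relations between ordinates at dilated places -/

set_option autoImplicit false

namespace Pool.Agent.K7.H75.DP

open Filter Topology
open SG (NZ ord ord_le_iff)
open Pool.Agent.R846.UL (cn cn_eq cn_mono cn_union cn_lt cn_biUnion)

/-- **dilated places** -/
theorem dil (k : ℕ) (α d : Fin k → ℝ) (hα : ∀ j, 0 < α j) (hd : ∀ j, 0 < d j)
    (hinj : ∀ i j, α i = α j → d i = d j → i = j) (κ B : ℝ) (hκ : 0 < κ) : ∃ δ : ℝ, 0 < δ ∧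
    ∀ᶠ N : ℕ in atTop, ∀ m : Fin k → ℕ → ℕ,
    (∀ j n, 1 ≤ n → n ≤ N → |(m j n : ℝ) - α j * (n : ℝ) ^ d j| ≤ B * (n : ℝ) ^ (d j - κ)) →
    cn N {n | ∃ c : Fin k → ℤ, c ≠ 0 ∧ (∀ j, |(c j : ℝ)| ≤ (N : ℝ) ^ δ) ∧
      |∑ j, (c j : ℝ) * ord (m j n)| ≤ (N : ℝ) ^ δ} ≤ (N : ℝ) ^ (1 - δ) := by
  classical
  have hpi := Real.pi_pos
  have hpi3 := Real.pi_gt_three
  -- constants
  obtain ⟨g, hg0, hg1, hg⟩ := fin_min (fun p : Fin k × Fin k => if d p.1 < d p.2 then d p.2 - d p.1 else 1)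
    (fun p => by
      split_ifs with h
      · linarith
      · exact one_pos)
  obtain ⟨dm, hdm0, hdm1, hdm⟩ := fin_min (fun j => d j / 2) (fun j => by have := hd j; linarith)
  obtain ⟨a, ha0, ha1, ha⟩ := fin_min α hα
  obtain ⟨κ₃, hκ₃⟩ : ∃ κ₃ : ℝ, κ₃ = min κ (min g dm) := ⟨_, rfl⟩
  have hκ₃0 : 0 < κ₃ := by rw [hκ₃]; exact lt_min hκ (lt_min hg0 hdm0)
  have hκ₃κ : κ₃ ≤ κ := by rw [hκ₃]; exact min_le_left _ _
  have hκ₃g : κ₃ ≤ g := by rw [hκ₃]; exact (min_le_right _ _).trans (min_le_left _ _)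
  have hκ₃d : ∀ j, κ₃ ≤ d j / 2 := fun j => by
    rw [hκ₃]; exact ((min_le_right _ _).trans (min_le_right _ _)).trans (hdm j)
  have hκ₃1 : κ₃ ≤ 1 := hκ₃g.trans hg1
  have hgap : ∀ i j, d i < d j → d i ≤ d j - κ₃ := by
    intro i j hij
    have := hg (i, j)
    simp only [if_pos hij] at this
    linarith
  have hplace : ∀ j, ∃ A : ℝ, 0 < A ∧ ∀ᶠ n : ℕ in atTop, ∀ m : ℕ,
      |(m : ℝ) - α j * (n : ℝ) ^ d j| ≤ |B| * (n : ℝ) ^ (d j - κ₃) →
      |ord m - 2 * Real.pi * α j * (n : ℝ) ^ d j * ww (d j * Real.log n - 1 + Real.log (α j))| ≤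
        A * (n : ℝ) ^ (d j - κ₃) ∧ |ord m| ≤ A * (n : ℝ) ^ d j :=
    fun j => place (hα j) (hd j) hκ₃0 (hκ₃d j) (abs_nonneg B)
  choose A hA0 hA using hplace
  obtain ⟨As, hAs⟩ : ∃ As : ℝ, As = ∑ j, A j := ⟨_, rfl⟩
  have hAs0 : 0 ≤ As := by rw [hAs]; exact Finset.sum_nonneg fun j _ => (hA0 j).le
  have hAj : ∀ j, A j ≤ As := fun j => by
    rw [hAs]
    exact Finset.single_le_sum (f := A) (fun j _ => (hA0 j).le) (Finset.mem_univ j)
  have hcount : ∀ j0 : Fin k, ∃ τ : ℝ, 0 < τ ∧ ∀ᶠ N : ℕ in atTop, ∀ C : {j // d j = d j0} → ℝ,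
      (∀ j, |C j| ≤ 1) → (∃ j, |C j| = 1) →
      ∀ F : Finset ℕ, (∀ n ∈ F, Real.sqrt N ≤ n ∧ (n : ℝ) ≤ N) →
      (∀ n ∈ F, |∑ j : {j // d j = d j0}, C j * ww (d j0 * Real.log n - 1 + Real.log (α j))| ≤
        (N : ℝ) ^ (-(κ₃ / 4))) →
      (F.card : ℝ) ≤ (N : ℝ) ^ (1 - τ) := by
    intro j0
    refine count_fin (fun j : {j // d j = d j0} => Real.log (α j)) (fun i j hij => ?_) (hd j0)
      (by positivity)
    have h1 : α i = α j := Real.log_injOn_pos (hα i) (hα j) hij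
    exact Subtype.ext (hinj i j h1 (i.2.trans j.2.symm))
  choose τ' hτ'0 hτ' using hcount
  obtain ⟨τ, hτ0, hτ1, hτ⟩ := fin_min τ' hτ'0
  obtain ⟨δ, hδ⟩ : ∃ δ : ℝ, δ = κ₃ * τ / (16 * (k + 2)) := ⟨_, rfl⟩
  have hkr : (0 : ℝ) ≤ k := Nat.cast_nonneg _
  have hδ0 : 0 < δ := by rw [hδ]; positivity
  have hδκ : δ ≤ κ₃ / 16 := by
    rw [hδ]
    rw [div_le_div_iff₀ (by positivity) (by norm_num)]
    have : κ₃ * τ ≤ κ₃ * 1 := mul_le_mul_of_nonneg_left hτ1 hκ₃0.le
    nlinarith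
  have hδτ : (k + 2) * δ ≤ τ / 16 := by
    have h1 : (k + 2) * δ = κ₃ * τ / 16 := by rw [hδ]; field_simp
    rw [h1]
    have : κ₃ * τ ≤ 1 * τ := mul_le_mul_of_nonneg_right hκ₃1 hτ0.le
    linarith
  refine ⟨δ, hδ0, ?_⟩
  -- eventual conditions
  obtain ⟨n₀, hn₀⟩ := (Filter.eventually_all.2 hA).exists_forall_of_atTop
  have hevR : ∀ᶠ x : ℝ in atTop, ((1 + k * As) / a) * Real.log x ^ 0 ≤ x ^ (κ₃ / 8) ∧
      2 * 3 ^ k * Real.log x ^ 0 ≤ x ^ (τ / 2) ∧ 4 * Real.log x ^ 0 ≤ x ^ (1 / 4 : ℝ) ∧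
      (n₀ + 1) * Real.log x ^ 0 ≤ x ^ (1 / 2 : ℝ) ∧ 1 ≤ x := by
    refine Filter.Eventually.and (ev_log _ _ (by positivity)) (Filter.Eventually.and (ev_log _ _ (by positivity))
      (Filter.Eventually.and (ev_log _ _ (by norm_num)) (Filter.Eventually.and (ev_log _ _ (by norm_num))
      (eventually_ge_atTop _))))
  filter_upwards [tendsto_natCast_atTop_atTop.eventually hevR, Filter.eventually_all.2 hτ',
    eventually_ge_atTop 1] with N hN hNτ hN1 m hm
  obtain ⟨e1, e2, e3, e4, e5⟩ := hN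
  simp only [pow_zero, mul_one] at e1 e2 e3 e4
  obtain ⟨x, hx⟩ : ∃ x : ℝ, x = N := ⟨_, rfl⟩
  have hx0 : 0 < x := by rw [hx]; linarith
  have hsqrt : Real.sqrt x = x ^ (1 / 2 : ℝ) := Real.sqrt_eq_rpow x
  obtain ⟨Hn, hHn⟩ : ∃ Hn : ℕ, Hn = ⌊x ^ δ⌋₊ := ⟨_, rfl⟩
  have hxδ1 : 1 ≤ x ^ δ := Real.one_le_rpow (by rw [hx]; exact e5) hδ0.le
  have hHle : (Hn : ℝ) ≤ x ^ δ := by rw [hHn]; exact Nat.floor_le (by positivity)
  obtain ⟨Box, hBox⟩ : ∃ Box : Finset (Fin k → ℤ), Box = (Fintype.piFinset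
    (fun _ : Fin k => Finset.Icc (-(Hn : ℤ)) Hn)).filter (fun c => c ≠ 0) := ⟨_, rfl⟩
  have hBoxcard : (Box.card : ℝ) ≤ 3 ^ k * x ^ (k * δ) := by
    have h1 : Box.card ≤ (2 * Hn + 1) ^ k := by
      rw [hBox]
      refine (Finset.card_filter_le _ _).trans (le_of_eq ?_)
      rw [Fintype.card_piFinset]
      simp only [Int.card_Icc, Finset.prod_const, Finset.card_univ, Fintype.card_fin]
      have : ((Hn : ℤ) + 1 - -(Hn : ℤ)).toNat = 2 * Hn + 1 := by omega
      rw [this]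
    have h2 : (Box.card : ℝ) ≤ (2 * Hn + 1) ^ k := by exact_mod_cast h1
    refine h2.trans ?_
    calc (2 * (Hn : ℝ) + 1) ^ k ≤ (3 * x ^ δ) ^ k :=
          pow_le_pow_left₀ (by positivity) (by linarith) k
      _ = 3 ^ k * x ^ (k * δ) := by
          rw [mul_pow, ← Real.rpow_natCast (x ^ δ) k, ← Real.rpow_mul hx0.le, mul_comm δ]
  -- the sets
  obtain ⟨E, hE⟩ : ∃ E : (Fin k → ℤ) → Finset ℕ, ∀ c, E c = (Finset.Icc 1 N).filter
      (fun n : ℕ => Real.sqrt x ≤ n ∧ |∑ j, (c j : ℝ) * ord (m j n)| ≤ x ^ δ) := ⟨_, fun c => rfl⟩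
  have hEc : ∀ c ∈ Box, ((E c).card : ℝ) ≤ x ^ (1 - τ) := by
    intro c hc
    rw [hBox, Finset.mem_filter, Fintype.mem_piFinset] at hc
    obtain ⟨hc1, hc2⟩ := hc
    have hcx : ∀ j, |(c j : ℝ)| ≤ x ^ δ := by
      intro j
      have h1 := Finset.mem_Icc.1 (hc1 j)
      have h2 : |(c j : ℝ)| ≤ Hn := by exact_mod_cast abs_le.2 h1
      exact h2.trans hHle
    obtain ⟨j1, hj1⟩ : ∃ j, c j ≠ 0 := by
      by_contra hcon
      push Not at hcon
      exact hc2 (funext hcon)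
    obtain ⟨j0, hj0, hmax⟩ := Finset.exists_max_image (Finset.univ.filter (fun j => c j ≠ 0)) d
      ⟨j1, Finset.mem_filter.2 ⟨Finset.mem_univ _, hj1⟩⟩
    have hcj0 : c j0 ≠ 0 := (Finset.mem_filter.1 hj0).2
    have hDmax : ∀ j, c j ≠ 0 → d j ≤ d j0 := fun j hj =>
      hmax j (Finset.mem_filter.2 ⟨Finset.mem_univ _, hj⟩)
    have hne : Nonempty {j // d j = d j0} := ⟨⟨j0, rfl⟩⟩
    obtain ⟨jm, hjm⟩ := Finite.exists_max fun j : {j // d j = d j0} => |(c j : ℝ) * α j|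
    obtain ⟨M, hM⟩ : ∃ M : ℝ, M = |(c jm : ℝ) * α jm| := ⟨_, rfl⟩
    have hMa : a ≤ M := by
      have h1 := hjm ⟨j0, rfl⟩
      rw [← hM] at h1
      refine le_trans ?_ h1
      show a ≤ |(c j0 : ℝ) * α j0|
      rw [abs_mul, abs_of_pos (hα j0)]
      have h2 : (1 : ℝ) ≤ |(c j0 : ℝ)| := by exact_mod_cast Int.one_le_abs hcj0
      have h3 := ha j0
      have h4 := hα j0
      nlinarith
    have hM0 : 0 < M := by linarith
    have hcards := hNτ j0 (fun j => (c j : ℝ) * α j / M)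
      (fun j => by
        rw [abs_div, abs_of_pos hM0, div_le_one hM0, hM]
        exact hjm j)
      ⟨jm, by rw [abs_div, abs_of_pos hM0, ← hM, div_self hM0.ne']⟩ (E c)
      (fun n hn => by
        rw [hE, Finset.mem_filter, Finset.mem_Icc] at hn
        rw [← hx]
        exact ⟨hn.2.1, by rw [hx]; exact_mod_cast hn.1.2⟩)
      (fun n hn => by
        rw [hE, Finset.mem_filter, Finset.mem_Icc] at hn
        obtain ⟨⟨hn1, hn2⟩, hn3, hn4⟩ := hn
        rw [← hx]
        obtain ⟨y, hy⟩ : ∃ y : ℝ, y = n := ⟨_, rfl⟩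
        rw [← hy] at hn3 ⊢
        have hsx : 0 < Real.sqrt x := Real.sqrt_pos.2 hx0
        have hy0 : 0 < y := lt_of_lt_of_le hsx hn3
        have hy1 : 1 ≤ y := by rw [hy]; exact_mod_cast hn1
        have hnn₀ : n₀ ≤ n := by
          have h1 : (n₀ : ℝ) + 1 ≤ n := by
            rw [← hy]
            refine le_trans ?_ hn3
            rw [hsqrt, hx]
            exact e4
          exact_mod_cast (by linarith : (n₀ : ℝ) ≤ n)
        have hpl := fun j => hn₀ n hnn₀ j (m j n) (by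
          refine (hm j n hn1 hn2).trans ?_
          apply mul_le_mul (le_abs_self B) _ (by positivity) (abs_nonneg _)
          apply Real.rpow_le_rpow_of_exponent_le (by rw [← hy]; exact hy1)
          linarith)
        rw [← hy] at hpl
        obtain ⟨e, he⟩ : ∃ e : Fin k → ℝ, ∀ j, e j = (c j : ℝ) * ord (m j n) -
          (if d j = d j0 then (c j : ℝ) * (2 * Real.pi * α j * y ^ d j *
            ww (d j * Real.log y - 1 + Real.log (α j))) else 0) := ⟨_, fun j => rfl⟩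
        have hxδ0 : 0 < x ^ δ := by positivity
        have hyD : 0 < y ^ (d j0 - κ₃) := by positivity
        have heb : ∀ j, |e j| ≤ x ^ δ * (As * y ^ (d j0 - κ₃)) := by
          intro j
          rw [he]
          by_cases hdj : d j = d j0
          · rw [if_pos hdj, ← mul_sub, abs_mul]
            apply mul_le_mul (hcx j) _ (abs_nonneg _) hxδ0.le
            refine (hpl j).1.trans ?_
            rw [hdj]
            exact mul_le_mul_of_nonneg_right (hAj j) hyD.le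
          · rw [if_neg hdj, sub_zero]
            by_cases hcj : c j = 0
            · rw [hcj, Int.cast_zero, zero_mul, abs_zero]
              positivity
            · rw [abs_mul]
              apply mul_le_mul (hcx j) _ (abs_nonneg _) hxδ0.le
              refine (hpl j).2.trans ?_
              apply mul_le_mul (hAj j) _ (by positivity) hAs0
              exact Real.rpow_le_rpow_of_exponent_le hy1
                (hgap j j0 (lt_of_le_of_ne (hDmax j hcj) hdj))
        have hsum : ∑ j, (if d j = d j0 then (c j : ℝ) * (2 * Real.pi * α j * y ^ d j *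
            ww (d j * Real.log y - 1 + Real.log (α j))) else 0) =
            2 * Real.pi * y ^ d j0 * M * ∑ j : {j // d j = d j0}, (c j : ℝ) * α j / M *
              ww (d j0 * Real.log y - 1 + Real.log (α j)) := by
          rw [← Finset.sum_filter, Finset.sum_subtype (p := fun j => d j = d j0) (Finset.univ.filter
            (fun j => d j = d j0)) (fun j => by simp), Finset.mul_sum]
          refine Finset.sum_congr rfl fun j _ => ?_
          rw [j.2]
          field_simp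
        have hS : |2 * Real.pi * y ^ d j0 * M * ∑ j : {j // d j = d j0}, (c j : ℝ) * α j / M *
              ww (d j0 * Real.log y - 1 + Real.log (α j))| ≤ x ^ δ * ((1 + k * As) * y ^ (d j0 - κ₃)) := by
          rw [← hsum]
          have h1 : ∑ j, (if d j = d j0 then (c j : ℝ) * (2 * Real.pi * α j * y ^ d j *
            ww (d j * Real.log y - 1 + Real.log (α j))) else 0) =
            ∑ j, (c j : ℝ) * ord (m j n) - ∑ j, e j := by
            rw [← Finset.sum_sub_distrib]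
            refine Finset.sum_congr rfl fun j _ => ?_
            rw [he]; ring
          rw [h1]
          refine (abs_sub _ _).trans ?_
          have h2 : |∑ j, e j| ≤ k * (x ^ δ * (As * y ^ (d j0 - κ₃))) := by
            refine (Finset.abs_sum_le_sum_abs _ _).trans ((Finset.sum_le_sum fun j _ => heb j).trans ?_)
            rw [Finset.sum_const, Finset.card_univ, Fintype.card_fin, nsmul_eq_mul]
          have h3 : 1 ≤ y ^ (d j0 - κ₃) := Real.one_le_rpow hy1 (by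
            have := hκ₃d j0
            have := hd j0
            linarith)
          nlinarith
        obtain ⟨Sg, hSg⟩ : ∃ Sg : ℝ, Sg = |∑ j : {j // d j = d j0}, (c j : ℝ) * α j / M *
              ww (d j0 * Real.log y - 1 + Real.log (α j))| := ⟨_, rfl⟩
        rw [abs_mul, ← hSg, abs_of_pos (by positivity)] at hS
        rw [← hSg]
        have hSg0 : 0 ≤ Sg := by rw [hSg]; exact abs_nonneg _
        have hyκ : y ^ (d j0 - κ₃) = y ^ d j0 * y ^ (-κ₃) := by
          rw [← Real.rpow_add hy0]; congr 1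
        have hyd : 0 < y ^ d j0 := by positivity
        have h4 : M * Sg ≤ x ^ δ * ((1 + k * As) * y ^ (-κ₃)) := by
          rw [hyκ] at hS
          have h5 : y ^ d j0 * (M * Sg) ≤ y ^ d j0 * (x ^ δ * ((1 + k * As) * y ^ (-κ₃))) := by
            calc y ^ d j0 * (M * Sg) ≤ 2 * Real.pi * (y ^ d j0 * (M * Sg)) := by
                  have : 0 ≤ y ^ d j0 * (M * Sg) := by positivity
                  nlinarith
              _ = 2 * Real.pi * y ^ d j0 * M * Sg := by ring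
              _ ≤ _ := hS
              _ = _ := by ring
          exact le_of_mul_le_mul_left h5 hyd
        have h6 : y ^ (-κ₃) ≤ x ^ (-(κ₃ / 2)) := by
          have h7 : Real.sqrt x ^ (-κ₃) = x ^ (-(κ₃ / 2)) := by
            rw [hsqrt, ← Real.rpow_mul hx0.le]
            congr 1
            ring
          rw [← h7]
          exact Real.rpow_le_rpow_of_nonpos hsx hn3 (by linarith)
        have h8 : a * Sg ≤ a * x ^ (-(κ₃ / 4)) := by
          have h9 : (1 + k * As) ≤ a * x ^ (κ₃ / 8) := by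
            rw [div_le_iff₀ ha0, ← hx] at e1
            linarith
          have h10 : x ^ δ ≤ x ^ (κ₃ / 16) := Real.rpow_le_rpow_of_exponent_le (by rw [hx]; exact e5) hδκ
          have h11 : x ^ (κ₃ / 16) * (x ^ (κ₃ / 8) * x ^ (-(κ₃ / 2))) ≤ x ^ (-(κ₃ / 4)) := by
            rw [← Real.rpow_add hx0, ← Real.rpow_add hx0]
            exact Real.rpow_le_rpow_of_exponent_le (by rw [hx]; exact e5) (by linarith)
          calc a * Sg ≤ M * Sg := mul_le_mul_of_nonneg_right hMa hSg0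
            _ ≤ x ^ δ * ((1 + k * As) * y ^ (-κ₃)) := h4
            _ ≤ x ^ (κ₃ / 16) * ((a * x ^ (κ₃ / 8)) * x ^ (-(κ₃ / 2))) := by
                apply mul_le_mul h10 _ (by positivity) (by positivity)
                exact mul_le_mul h9 h6 (by positivity) (by positivity)
            _ = a * (x ^ (κ₃ / 16) * (x ^ (κ₃ / 8) * x ^ (-(κ₃ / 2)))) := by ring
            _ ≤ a * x ^ (-(κ₃ / 4)) := mul_le_mul_of_nonneg_left h11 ha0.le
        exact le_of_mul_le_mul_left h8 ha0)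
    rw [← hx] at hcards
    refine hcards.trans (Real.rpow_le_rpow_of_exponent_le (by rw [hx]; exact e5) ?_)
    have := hτ j0
    linarith
  -- the union
  have hsub : cn N {n | ∃ c : Fin k → ℤ, c ≠ 0 ∧ (∀ j, |(c j : ℝ)| ≤ (N : ℝ) ^ δ) ∧
      |∑ j, (c j : ℝ) * ord (m j n)| ≤ (N : ℝ) ^ δ} ≤
      cn N ({n | n < ⌈Real.sqrt x⌉₊} ∪ ⋃ c ∈ Box, {n | n ∈ E c}) := by
    refine cn_mono fun n hn1 hn2 hn => ?_
    obtain ⟨c, hc0, hc1, hc2⟩ := hn
    by_cases hlt : n < ⌈Real.sqrt x⌉₊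
    · left; exact hlt
    · right
      rw [← hx] at hc1 hc2
      refine Set.mem_biUnion (x := c) ?_ ?_
      · show c ∈ Box
        rw [hBox, Finset.mem_filter, Fintype.mem_piFinset]
        refine ⟨fun j => ?_, hc0⟩
        rw [Finset.mem_Icc, ← abs_le]
        have h1 : ((|c j| : ℤ) : ℝ) ≤ x ^ δ := by rw [Int.cast_abs]; exact hc1 j
        have h2 : (c j).natAbs ≤ Hn := by
          rw [hHn]
          apply Nat.le_floor
          rw [Nat.cast_natAbs]
          exact h1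
        rw [Int.abs_eq_natAbs]
        exact_mod_cast h2
      · show n ∈ E c
        rw [hE, Finset.mem_filter, Finset.mem_Icc]
        push Not at hlt
        exact ⟨⟨hn1, hn2⟩, (Nat.le_ceil _).trans (by exact_mod_cast hlt), hc2⟩
  refine hsub.trans ((cn_union N _ _).trans ?_)
  have h1 := cn_lt N ⌈Real.sqrt x⌉₊
  have h2 := cn_biUnion N Box (fun c => {n | n ∈ E c})
  have h3 : ∀ c ∈ Box, cn N {n | n ∈ E c} ≤ x ^ (1 - τ) := by
    intro c hc
    refine le_trans ?_ (hEc c hc)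
    rw [cn_eq]
    exact_mod_cast Finset.card_le_card (fun n hn => (Finset.mem_filter.1 hn).2)
  have h4 : ∑ c ∈ Box, cn N {n | n ∈ E c} ≤ 3 ^ k * x ^ (k * δ) * x ^ (1 - τ) := by
    calc ∑ c ∈ Box, cn N {n | n ∈ E c} ≤ ∑ c ∈ Box, x ^ (1 - τ) := Finset.sum_le_sum h3
      _ = Box.card * x ^ (1 - τ) := by rw [Finset.sum_const, nsmul_eq_mul]
      _ ≤ _ := mul_le_mul_of_nonneg_right hBoxcard (by positivity)
  have hx1 : 1 ≤ x := by rw [hx]; exact e5
  have h5 : 3 ^ k * x ^ (k * δ) * x ^ (1 - τ) ≤ x ^ (1 - δ) / 2 := by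
    rw [← hx] at e2
    have h6 : 3 ^ k ≤ x ^ (τ / 2) / 2 := by linarith
    calc 3 ^ k * x ^ (k * δ) * x ^ (1 - τ) ≤ x ^ (τ / 2) / 2 * x ^ (k * δ) * x ^ (1 - τ) := by
          apply mul_le_mul_of_nonneg_right _ (by positivity)
          exact mul_le_mul_of_nonneg_right h6 (by positivity)
      _ = x ^ (τ / 2 + k * δ + (1 - τ)) / 2 := by
          rw [Real.rpow_add hx0, Real.rpow_add hx0]; ring
      _ ≤ x ^ (1 - δ) / 2 := by
          apply div_le_div_of_nonneg_right _ (by norm_num)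
          apply Real.rpow_le_rpow_of_exponent_le hx1
          nlinarith
  have h7 : (⌈Real.sqrt x⌉₊ : ℝ) ≤ x ^ (1 - δ) / 2 := by
    have h8 : 1 ≤ Real.sqrt x := Real.one_le_sqrt.2 hx1
    have h9 := (Nat.ceil_lt_add_one (Real.sqrt_nonneg x)).le
    rw [← hx] at e3
    have h10 : x ^ (1 / 2 : ℝ) * x ^ (1 / 4 : ℝ) ≤ x ^ (1 - δ) := by
      rw [← Real.rpow_add hx0]
      apply Real.rpow_le_rpow_of_exponent_le hx1
      linarith
    rw [hsqrt] at h8 h9
    rw [hsqrt]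
    nlinarith
  rw [← hx]
  linarith

end Pool.Agent.K7.H75.DP
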