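import Pool.Agent.K7.H75.DP.FD

/-! # Relations between ordinates near dilated places -/

set_option autoImplicit false

namespace Pool.Agent.K7.H75.DP

open Filter Topology
open SG (NZ ord ord_le_iff)
open Pool.Agent.R846.UL (cn cn_eq cn_mono cn_union cn_lt cn_biUnion)

/-- differences of ordinates -/
lemma ord_sub : ∃ (K : ℝ) (m₀ : ℕ), 1 ≤ K ∧ ∀ m s : ℕ, m₀ ≤ m →
    |ord (m + s) - ord m| ≤ K * (Real.log (m + s) + s) := by
  obtain ⟨K, m₀, hK, hm₀, hord⟩ := ord_gg
  have hpi := Real.pi_pos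
  have hw := ww_pos (-1)
  obtain ⟨L, hL⟩ : ∃ L : ℝ, L = 2 * Real.pi * ww (-1) := ⟨_, rfl⟩
  have hL0 : 0 < L := by rw [hL]; positivity
  refine ⟨2 * K + L, m₀, by linarith, fun m s hm => ?_⟩
  have hm1 : (1 : ℝ) ≤ m := by exact_mod_cast hm₀.trans hm
  have hs0 : (0 : ℝ) ≤ s := Nat.cast_nonneg _
  have h1 := hord m hm
  have h2 := hord (m + s) (by omega)
  have h3 := gg_lip (a := m) (b := m + s) hm1 (by linarith)
  rw [← hL, add_sub_cancel_left, abs_of_nonneg hs0] at h3
  push_cast at h2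
  have h4 : Real.log m ≤ Real.log (m + s) := Real.log_le_log (by linarith) (by linarith)
  have h5 : 0 ≤ Real.log (m : ℝ) := Real.log_nonneg hm1
  have e : ord (m + s) - ord m = (ord (m + s) - gg (m + s)) + (gg (m + s) - gg m) - (ord m - gg m) := by
    ring
  rw [e]
  refine (abs_sub _ _).trans ((add_le_add (abs_add_le _ _) le_rfl).trans ?_)
  have h6 : 0 ≤ L * Real.log ((m : ℝ) + s) := by
    have : 0 ≤ Real.log ((m : ℝ) + s) := by linarith
    positivity
  have h7 : K * Real.log m ≤ K * Real.log (m + s) := mul_le_mul_of_nonneg_left h4 (by linarith)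
  have h8 : 0 ≤ K * s := by positivity
  nlinarith

/-- **near dilated places** -/
theorem dil2 (k : ℕ) (α d : Fin k → ℝ) (hα : ∀ j, 0 < α j) (hd : ∀ j, 0 < d j)
    (hinj : ∀ i j, α i = α j → d i = d j → i = j) (κ B : ℝ) (hκ : 0 < κ) : ∃ δ : ℝ, 0 < δ ∧
    ∀ᶠ N : ℕ in atTop, ∀ m : Fin k → ℕ → ℕ,
    (∀ j n, 1 ≤ n → n ≤ N → |(m j n : ℝ) - α j * (n : ℝ) ^ d j| ≤ B * (n : ℝ) ^ (d j - κ)) →
    cn N {n | ∃ (S : ℕ) (c : Fin k → ℕ → ℤ), (S : ℝ) ≤ (N : ℝ) ^ δ ∧
      (∀ j s, |(c j s : ℝ)| ≤ (N : ℝ) ^ δ) ∧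
      |∑ j, ∑ s ∈ Finset.range S, (c j s : ℝ) * ord (m j n + s)| ≤ (N : ℝ) ^ δ ∧
      ∃ j, ∑ s ∈ Finset.range S, c j s ≠ 0} ≤ (N : ℝ) ^ (1 - δ) := by
  obtain ⟨δ₀, hδ₀, hdil⟩ := dil k α d hα hd hinj κ B hκ
  obtain ⟨K, m₀, hK, hsub⟩ := ord_sub
  obtain ⟨δ, hδ⟩ : ∃ δ : ℝ, δ = min δ₀ 1 / 5 := ⟨_, rfl⟩
  have hmin0 : 0 < min δ₀ 1 := lt_min hδ₀ one_pos
  have hδ0 : 0 < δ := by rw [hδ]; positivity
  have hδδ₀ : 5 * δ ≤ δ₀ := by
    rw [hδ]
    have := min_le_left δ₀ 1
    linarith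
  have hδ1 : 5 * δ ≤ 1 := by
    rw [hδ]
    have := min_le_right δ₀ 1
    linarith
  obtain ⟨P, hP⟩ : ∃ P : ℝ, P = ∑ j, (Real.log (2 * α j + 1) + d j + 1) := ⟨_, rfl⟩
  have hPj0 : ∀ j, 0 ≤ Real.log (2 * α j + 1) + d j + 1 := fun j => by
    have h1 := hα j
    have h2 := hd j
    have h3 : 0 ≤ Real.log (2 * α j + 1) := Real.log_nonneg (by linarith)
    linarith
  have hP0 : 0 ≤ P := by rw [hP]; exact Finset.sum_nonneg fun j _ => hPj0 j
  have hPj : ∀ j, Real.log (2 * α j + 1) + d j + 1 ≤ P := fun j => by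
    rw [hP]
    exact Finset.single_le_sum (f := fun j => Real.log (2 * α j + 1) + d j + 1) (fun j _ => hPj0 j)
      (Finset.mem_univ j)
  have hkr : (0 : ℝ) ≤ k := Nat.cast_nonneg _
  -- the small indices
  have hevn : ∀ᶠ n : ℕ in atTop, ∀ j, 1 ≤ (n : ℝ) ∧ (2 * m₀ + 2) / α j ≤ (n : ℝ) ^ d j ∧
      2 * |B| / α j ≤ (n : ℝ) ^ κ := by
    rw [Filter.eventually_all]
    intro j
    have h1 : ∀ᶠ x : ℝ in atTop, 1 ≤ x ∧ (2 * m₀ + 2) / α j * Real.log x ^ 0 ≤ x ^ d j ∧
        2 * |B| / α j * Real.log x ^ 0 ≤ x ^ κ :=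
      (eventually_ge_atTop 1).and ((ev_log _ _ (hd j)).and (ev_log _ _ hκ))
    filter_upwards [tendsto_natCast_atTop_atTop.eventually h1] with n hn
    simpa using hn
  obtain ⟨n₁, hn₁⟩ := hevn.exists_forall_of_atTop
  have hevR : ∀ᶠ x : ℝ in atTop, 3 ≤ x ∧ k * K * P * Real.log x ^ 1 ≤ x ^ δ ∧
      k * K * Real.log x ^ 0 ≤ x ^ δ ∧ 3 * Real.log x ^ 0 ≤ x ^ δ ∧
      2 * n₁ * Real.log x ^ 0 ≤ x ^ (1 / 2 : ℝ) := by
    exact (eventually_ge_atTop 3).and ((ev_log _ _ hδ0).and ((ev_log _ _ hδ0).and ((ev_log _ _ hδ0).and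
      (ev_log _ _ (by norm_num)))))
  refine ⟨δ, hδ0, ?_⟩
  filter_upwards [tendsto_natCast_atTop_atTop.eventually hevR, hdil] with N hN hNdil m hm
  obtain ⟨e0, e1, e2, e3, e4⟩ := hN
  simp only [pow_zero, mul_one, pow_one] at e1 e2 e3 e4
  have hmain := hNdil m hm
  obtain ⟨x, hx⟩ : ∃ x : ℝ, x = N := ⟨_, rfl⟩
  rw [← hx] at e0 e1 e2 e3 e4 hmain ⊢
  have hx0 : 0 < x := by linarith
  have hx1 : 1 ≤ x := by linarith
  have hlogx : 1 ≤ Real.log x := by
    rw [Real.le_log_iff_exp_le hx0]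
    have := Real.exp_one_lt_d9
    linarith
  have hxδ0 : 0 < x ^ δ := by positivity
  have hxδ1 : 1 ≤ x ^ δ := by linarith
  have hp2 : x ^ δ * x ^ δ = x ^ (2 * δ) := by
    rw [← Real.rpow_add hx0]; congr 1; ring
  have hp5 : x ^ δ * x ^ δ * x ^ δ * x ^ δ * x ^ δ = x ^ (5 * δ) := by
    rw [← Real.rpow_add hx0, ← Real.rpow_add hx0, ← Real.rpow_add hx0, ← Real.rpow_add hx0]
    congr 1; ring
  have hp5' : x ^ (5 * δ) ≤ x ^ δ₀ := Real.rpow_le_rpow_of_exponent_le hx1 hδδ₀
  have hstep : cn N {n | ∃ (S : ℕ) (c : Fin k → ℕ → ℤ), (S : ℝ) ≤ x ^ δ ∧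
      (∀ j s, |(c j s : ℝ)| ≤ x ^ δ) ∧
      |∑ j, ∑ s ∈ Finset.range S, (c j s : ℝ) * ord (m j n + s)| ≤ x ^ δ ∧
      ∃ j, ∑ s ∈ Finset.range S, c j s ≠ 0} ≤
      cn N ({n | n < n₁} ∪ {n | ∃ c : Fin k → ℤ, c ≠ 0 ∧ (∀ j, |(c j : ℝ)| ≤ x ^ δ₀) ∧
        |∑ j, (c j : ℝ) * ord (m j n)| ≤ x ^ δ₀}) := by
    refine cn_mono fun n hn1 hn2 hn => ?_
    obtain ⟨S, c, hS, hc, hsum, j0, hj0⟩ := hn
    by_cases hlt : n < n₁
    · left; exact hlt
    · right
      push Not at hlt
      have hnx : (n : ℝ) ≤ x := by rw [hx]; exact_mod_cast hn2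
      have hn1r : (1 : ℝ) ≤ n := by exact_mod_cast hn1
      have hn0r : (0 : ℝ) < n := by linarith
      have hpl : ∀ j, m₀ ≤ m j n ∧ (m j n : ℝ) ≤ 2 * α j * x ^ d j := by
        intro j
        obtain ⟨f1, f2, f3⟩ := hn₁ n hlt j
        have hαj := hα j
        have hnd : 0 < (n : ℝ) ^ d j := by positivity
        have h1 : (n : ℝ) ^ (d j - κ) * (n : ℝ) ^ κ = (n : ℝ) ^ d j := by
          rw [← Real.rpow_add hn0r]; congr 1; ring
        have h2 : 0 < (n : ℝ) ^ (d j - κ) := by positivity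
        have h3 : B * (n : ℝ) ^ (d j - κ) ≤ α j * (n : ℝ) ^ d j / 2 := by
          rw [div_le_iff₀ hαj] at f3
          have h4 := mul_le_mul_of_nonneg_left f3 h2.le
          have h5 : B * (n : ℝ) ^ (d j - κ) ≤ |B| * (n : ℝ) ^ (d j - κ) :=
            mul_le_mul_of_nonneg_right (le_abs_self B) h2.le
          rw [← h1]
          nlinarith
        have h4 := abs_le.1 ((hm j n hn1 hn2).trans h3)
        rw [div_le_iff₀ hαj] at f2
        constructor
        · have : (m₀ : ℝ) ≤ m j n := by linarith [h4.1]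
          exact_mod_cast this
        · have h5 : (n : ℝ) ^ d j ≤ x ^ d j := Real.rpow_le_rpow hn0r.le hnx (hd j).le
          have h6 : (m j n : ℝ) ≤ 2 * α j * (n : ℝ) ^ d j := by nlinarith [h4.2]
          exact h6.trans (mul_le_mul_of_nonneg_left h5 (by positivity))
      have hdiff : ∀ j, ∀ s ∈ Finset.range S, |ord (m j n + s) - ord (m j n)| ≤ K * (P * Real.log x + x ^ δ) := by
        intro j s hs
        have hsS : (s : ℝ) ≤ x ^ δ := by
          have : (s : ℝ) ≤ S := by exact_mod_cast (Finset.mem_range.1 hs).le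
          linarith
        refine (hsub (m j n) s (hpl j).1).trans ?_
        apply mul_le_mul_of_nonneg_left _ (by linarith)
        apply add_le_add _ hsS
        have hαj := hα j
        have hdj := hd j
        have hxd1 : 1 ≤ x ^ d j := Real.one_le_rpow hx1 hdj.le
        by_cases hz : (m j n : ℝ) + s = 0
        · rw [hz, Real.log_zero]
          positivity
        · have h0 : 0 < (m j n : ℝ) + s := lt_of_le_of_ne (by positivity) (Ne.symm hz)
          have h1 : (m j n : ℝ) + s ≤ (2 * α j + 1) * (x ^ d j * x) := by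
            have h2 : x ^ δ ≤ x := by
              calc x ^ δ ≤ x ^ (1 : ℝ) := Real.rpow_le_rpow_of_exponent_le hx1 (by linarith)
                _ = x := Real.rpow_one x
            have h3 : 2 * α j * x ^ d j ≤ 2 * α j * (x ^ d j * x) := by
              apply mul_le_mul_of_nonneg_left _ (by positivity)
              exact le_mul_of_one_le_right (by positivity) hx1
            have h4 : x ≤ x ^ d j * x := le_mul_of_one_le_left hx0.le hxd1
            have h5 := (hpl j).2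
            nlinarith
          have h2 := Real.log_le_log h0 h1
          rw [Real.log_mul (by positivity) (by positivity), Real.log_mul (by positivity) hx0.ne',
            Real.log_rpow hx0] at h2
          have h3 := hPj j
          have h4 : 0 ≤ Real.log (2 * α j + 1) := Real.log_nonneg (by linarith)
          have h5 : Real.log (2 * α j + 1) ≤ Real.log (2 * α j + 1) * Real.log x :=
            le_mul_of_one_le_right h4 hlogx
          nlinarith
      refine ⟨fun j => ∑ s ∈ Finset.range S, c j s, fun h => hj0 (congrFun h j0), fun j => ?_, ?_⟩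
      · push_cast
        refine (Finset.abs_sum_le_sum_abs _ _).trans ?_
        calc ∑ s ∈ Finset.range S, |(c j s : ℝ)| ≤ ∑ s ∈ Finset.range S, x ^ δ :=
              Finset.sum_le_sum fun s _ => hc j s
          _ = S * x ^ δ := by rw [Finset.sum_const, Finset.card_range, nsmul_eq_mul]
          _ ≤ x ^ δ * x ^ δ := mul_le_mul_of_nonneg_right hS hxδ0.le
          _ = x ^ (2 * δ) := hp2
          _ ≤ x ^ δ₀ := Real.rpow_le_rpow_of_exponent_le hx1 (by linarith)
      · have h1 : ∑ j, ((∑ s ∈ Finset.range S, c j s : ℤ) : ℝ) * ord (m j n) =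
            ∑ j, ∑ s ∈ Finset.range S, (c j s : ℝ) * ord (m j n + s) -
            ∑ j, ∑ s ∈ Finset.range S, (c j s : ℝ) * (ord (m j n + s) - ord (m j n)) := by
          rw [← Finset.sum_sub_distrib]
          refine Finset.sum_congr rfl fun j _ => ?_
          rw [← Finset.sum_sub_distrib]
          push_cast
          rw [Finset.sum_mul]
          exact Finset.sum_congr rfl fun s _ => by ring
        show |∑ j, ((∑ s ∈ Finset.range S, c j s : ℤ) : ℝ) * ord (m j n)| ≤ x ^ δ₀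
        rw [h1]
        refine (abs_sub _ _).trans ?_
        have h2 : |∑ j, ∑ s ∈ Finset.range S, (c j s : ℝ) * (ord (m j n + s) - ord (m j n))| ≤
            k * (x ^ δ * (x ^ δ * (K * (P * Real.log x + x ^ δ)))) := by
          refine (Finset.abs_sum_le_sum_abs _ _).trans ?_
          calc ∑ j, |∑ s ∈ Finset.range S, (c j s : ℝ) * (ord (m j n + s) - ord (m j n))|
              ≤ ∑ j : Fin k, x ^ δ * (x ^ δ * (K * (P * Real.log x + x ^ δ))) := by
                refine Finset.sum_le_sum fun j _ => ?_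
                refine (Finset.abs_sum_le_sum_abs _ _).trans ?_
                calc ∑ s ∈ Finset.range S, |(c j s : ℝ) * (ord (m j n + s) - ord (m j n))|
                    ≤ ∑ s ∈ Finset.range S, x ^ δ * (K * (P * Real.log x + x ^ δ)) := by
                      refine Finset.sum_le_sum fun s hs => ?_
                      rw [abs_mul]
                      exact mul_le_mul (hc j s) (hdiff j s hs) (abs_nonneg _) hxδ0.le
                  _ = S * (x ^ δ * (K * (P * Real.log x + x ^ δ))) := by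
                      rw [Finset.sum_const, Finset.card_range, nsmul_eq_mul]
                  _ ≤ _ := mul_le_mul_of_nonneg_right hS (by positivity)
            _ = _ := by rw [Finset.sum_const, Finset.card_univ, Fintype.card_fin, nsmul_eq_mul]
        have h3 : k * (x ^ δ * (x ^ δ * (K * (P * Real.log x + x ^ δ)))) ≤
            x ^ δ * x ^ δ * (x ^ δ + x ^ δ * x ^ δ) := by
          have h4 : k * (x ^ δ * (x ^ δ * (K * (P * Real.log x + x ^ δ)))) =
              x ^ δ * x ^ δ * (k * K * P * Real.log x + k * K * x ^ δ) := by ring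
          rw [h4]
          apply mul_le_mul_of_nonneg_left _ (by positivity)
          exact add_le_add e1 (mul_le_mul_of_nonneg_right e2 hxδ0.le)
        have h5 : x ^ δ + x ^ δ * x ^ δ * (x ^ δ + x ^ δ * x ^ δ) ≤ x ^ (5 * δ) := by
          rw [← hp5]
          obtain ⟨y, hy⟩ : ∃ y : ℝ, y = x ^ δ := ⟨_, rfl⟩
          rw [← hy] at e3 ⊢
          have hy0 : 0 < y := by linarith
          have g1 : y ≤ y ^ 4 := le_self_pow₀ (by linarith) (by norm_num)
          have g2 : y ^ 3 ≤ y ^ 4 := pow_le_pow_right₀ (by linarith) (by norm_num)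
          have g3 : 3 * y ^ 4 ≤ y * y ^ 4 := mul_le_mul_of_nonneg_right e3 (by positivity)
          nlinarith
        linarith
  refine hstep.trans ((cn_union N _ _).trans ?_)
  have h1 := cn_lt N n₁
  have h2 : (n₁ : ℝ) ≤ x ^ (1 - δ) / 2 := by
    have h3 : x ^ (1 / 2 : ℝ) ≤ x ^ (1 - δ) := Real.rpow_le_rpow_of_exponent_le hx1 (by linarith)
    linarith
  have h4 : x ^ (1 - δ₀) ≤ x ^ (1 - δ) / 2 := by
    have h5 : x ^ (1 - δ₀) ≤ x ^ (1 - 5 * δ) := Real.rpow_le_rpow_of_exponent_le hx1 (by linarith)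
    have h6 : x ^ (1 - 5 * δ) * x ^ δ ≤ x ^ (1 - δ) := by
      rw [← Real.rpow_add hx0]
      exact Real.rpow_le_rpow_of_exponent_le hx1 (by linarith)
    have h7 : 0 < x ^ (1 - 5 * δ) := by positivity
    nlinarith
  linarith

end Pool.Agent.K7.H75.DP
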