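import Pool.Agent.Y746.OJ.RV
import Pool.Agent.Y815.OJ.AP
import Pool.Agent.Y37.OJ.GA
import Pool.Agent.Y340.OJ.BD
import Pool.Agent.H382R2.Final0
import Pool.Agent.K7.H75.DP.CT

/-! # The ordinates are near a smooth sequence -/

set_option autoImplicit false

namespace Pool.Agent.K7.H75.DP

open Filter Topology
open SG (NZ ord ord_le_iff)
open Pool.Agent.Y746.OJ (pt S0)

/-- the main term of the counting function -/
noncomputable def mt (t : ℝ) : ℝ :=
  t / (2 * Real.pi) * Real.log (t / (2 * Real.pi)) - t / (2 * Real.pi)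

lemma mt_cont {t : ℝ} (ht : 0 < t) : ContinuousAt mt t := by
  have hpi := Real.pi_pos
  have h1 : ContinuousAt (fun t : ℝ => t / (2 * Real.pi)) t := by fun_prop
  have h2 : t / (2 * Real.pi) ≠ 0 := by positivity
  exact (h1.mul (h1.log h2)).sub h1

lemma NZ_split {t : ℝ} (ht : 1 ≤ t) : NZ t = NZ 1 + H370.NN riemannZeta 1 t := by
  have e : {s : ℂ | riemannZeta s = 0 ∧ 0 < s.re ∧ s.re < 1 ∧ 0 < s.im ∧ s.im ≤ t} =
      {s : ℂ | riemannZeta s = 0 ∧ 0 < s.re ∧ s.re < 1 ∧ 0 < s.im ∧ s.im ≤ 1} ∪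
        H370.zset riemannZeta 1 t := by
    ext s
    simp only [H370.zset, Set.mem_ofPred_eq, Set.mem_union]
    constructor
    · rintro ⟨h1, h2, h3, h4, h5⟩
      rcases le_or_gt s.im 1 with h | h
      · exact Or.inl ⟨h1, h2, h3, h4, h⟩
      · exact Or.inr ⟨h2, h3, h, h5, h1⟩
    · rintro (⟨h1, h2, h3, h4, h5⟩ | ⟨h1, h2, h3, h4, h5⟩)
      · exact ⟨h1, h2, h3, h4, h5.trans ht⟩
      · exact ⟨h5, h1, h2, by linarith, h4⟩
  have hfin : (SG.ZS t).Finite := SG.ZS_finite t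
  unfold NZ H370.NN
  rw [e]
  refine finsum_mem_union ?_ (SG.ZS_finite 1) (hfin.subset ?_)
  · rw [Set.disjoint_left]
    rintro s ⟨_, _, _, _, h5⟩ ⟨_, _, h3, _, _⟩
    linarith
  · rintro s ⟨h1, h2, h3, h4, h5⟩
    exact ⟨h5, h1, h2, by linarith, h4⟩

/-- the Riemann-von Mangoldt formula -/
theorem rv : ∃ K : ℝ, 1 ≤ K ∧ ∀ t : ℝ, 10 ≤ t → |(NZ t : ℝ) - mt t| ≤ K * Real.log t := by
  obtain ⟨C1, hC1, h1⟩ := Pool.Agent.Y746.OJ.t_RV Pool.Agent.Y815.OJ.t_AP Pool.Agent.Y37.OJ.t_GA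
  obtain ⟨C2, hC2, h2⟩ := Pool.Agent.Y340.OJ.t_BD
  obtain ⟨K0, hK0⟩ : ∃ K0 : ℝ, K0 = NZ 1 + C1 + C2 := ⟨_, rfl⟩
  have hNZ1 : (0 : ℝ) ≤ NZ 1 := Nat.cast_nonneg _
  have hlog10 : ∀ t : ℝ, 10 ≤ t → 1 ≤ Real.log t := by
    intro t ht
    rw [Real.le_log_iff_exp_le (by linarith)]
    have := Real.exp_one_lt_d9
    linarith
  -- good heights
  have hgood : ∀ t : ℝ, 10 ≤ t → (∀ σ : ℝ, 1 / 2 ≤ σ → σ ≤ 3 / 2 → riemannZeta (pt σ t) ≠ 0) →
      |(NZ t : ℝ) - mt t| ≤ K0 * Real.log t := by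
    intro t ht hz
    have a1 := h1 t ht hz
    have a2 := (h2 t (by linarith) hz).2
    have a3 := hlog10 t ht
    have a4 : (NZ t : ℝ) = NZ 1 + (H370.NN riemannZeta 1 t : ℝ) := by
      exact_mod_cast NZ_split (by linarith : 1 ≤ t)
    have a5 : (NZ t : ℝ) - mt t = NZ 1 + ((H370.NN riemannZeta 1 t : ℝ) -
      (t / (2 * Real.pi) * Real.log (t / (2 * Real.pi)) - t / (2 * Real.pi)) - S0 t) + S0 t := by
      rw [a4]
      unfold mt
      ring
    rw [a5]
    refine (abs_add_le _ _).trans ((add_le_add (abs_add_le _ _) le_rfl).trans ?_)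
    rw [abs_of_nonneg hNZ1, hK0]
    nlinarith
  refine ⟨2 * K0 + 1, by rw [hK0]; linarith, fun t ht => ?_⟩
  obtain ⟨t'', ht'', hNZ''⟩ := SG.NZ_right t
  have ht0 : 0 < t := by linarith
  have hlt := hlog10 t ht
  have hev : ∀ᶠ t' in 𝓝[>] t, |mt t' - mt t| < 1 ∧ Real.log t' < 2 * Real.log t := by
    have b1 : ∀ᶠ t' in 𝓝 t, |mt t' - mt t| < 1 := by
      have := (mt_cont ht0).eventually (Metric.ball_mem_nhds (mt t) one_pos)
      filter_upwards [this] with t' h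
      have h' : dist (mt t') (mt t) < 1 := h
      rwa [Real.dist_eq] at h'
    have b2 : ∀ᶠ t' in 𝓝 t, Real.log t' < 2 * Real.log t :=
      (Real.continuousAt_log ht0.ne').eventually_lt continuousAt_const (by linarith)
    exact (b1.and b2).filter_mono nhdsWithin_le_nhds
  have hev2 : ∀ᶠ t' in 𝓝[>] t, t' < t'' := by
    exact (Ioo_mem_nhdsGT ht'' : Set.Ioo t t'' ∈ 𝓝[>] t) |> fun h => by
      filter_upwards [h] with x hx using hx.2
  obtain ⟨t', ⟨hb1, hb2⟩, hb3, hb4⟩ := (hev.and (hev2.and self_mem_nhdsWithin)).exists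
  have htt' : t < t' := hb4
  have hNZ' : NZ t' = NZ t := le_antisymm (hNZ'' ▸ SG.NZ_mono hb3.le) (SG.NZ_mono htt'.le)
  have hz : ∀ σ : ℝ, 1 / 2 ≤ σ → σ ≤ 3 / 2 → riemannZeta (pt σ t') ≠ 0 := by
    intro σ hσ1 _ h0
    have hre : (pt σ t').re = σ := by simp [pt]
    have him : (pt σ t').im = t' := by simp [pt]
    rcases lt_or_ge σ 1 with h | h
    · have h5 := SG.jump_one h0 (by rw [hre]; linarith) (by rw [hre]; exact h) (by rw [him]; linarith) t
        (by rw [him]; exact htt')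
      rw [him, hNZ'] at h5
      have h6 := SG.zmult_pos (s := pt σ t') (by rw [him]; linarith) h0
      omega
    · exact riemannZeta_ne_zero_of_one_le_re (by rw [hre]; exact h) h0
  have h7 := hgood t' (by linarith) hz
  rw [hNZ'] at h7
  have hK00 : 0 ≤ K0 := by rw [hK0]; positivity
  have h8 : (NZ t : ℝ) - mt t = ((NZ t : ℝ) - mt t') + (mt t' - mt t) := by ring
  rw [h8]
  refine (abs_add_le _ _).trans ?_
  have h9 : K0 * Real.log t' ≤ K0 * (2 * Real.log t) := mul_le_mul_of_nonneg_left hb2.le hK00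
  nlinarith

/-- the main term at the ordinates -/
lemma rv_ord : ∃ K : ℝ, 1 ≤ K ∧ ∀ m : ℕ, 1 ≤ m → 11 ≤ ord m → |mt (ord m) - m| ≤ K * Real.log (ord m) := by
  obtain ⟨K, hK, h⟩ := rv
  refine ⟨K + 1, by linarith, fun m hm hT => ?_⟩
  obtain ⟨T, hTd⟩ : ∃ T : ℝ, T = ord m := ⟨_, rfl⟩
  rw [← hTd] at hT ⊢
  have hT0 : 0 < T := by linarith
  have hlog1 : 1 ≤ Real.log T := by
    rw [Real.le_log_iff_exp_le hT0]
    have := Real.exp_one_lt_d9
    linarith
  have h1 : (m : ℝ) ≤ NZ T := by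
    rw [hTd]
    exact_mod_cast SG.le_NZ_ord hm
  have h2 := abs_le.1 (h T (by linarith))
  have h3 : ∃ t : ℝ, t < T ∧ 10 ≤ t ∧ |mt t - mt T| < 1 := by
    have b1 : ∀ᶠ t' in 𝓝[<] T, |mt t' - mt T| < 1 := by
      have := (mt_cont hT0).eventually (Metric.ball_mem_nhds (mt T) one_pos)
      refine Filter.Eventually.filter_mono nhdsWithin_le_nhds ?_
      filter_upwards [this] with t' h
      have h' : dist (mt t') (mt T) < 1 := h
      rwa [Real.dist_eq] at h'
    have b2 : ∀ᶠ t' in 𝓝[<] T, 10 < t' := by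
      filter_upwards [Ioo_mem_nhdsLT (by linarith : (10 : ℝ) < T)] with x hx using hx.1
    obtain ⟨t, ⟨h4, h5⟩, h6⟩ := ((b1.and b2).and self_mem_nhdsWithin).exists
    exact ⟨t, h6, h5.le, h4⟩
  obtain ⟨t, ht1, ht2, ht3⟩ := h3
  have h4 : NZ t < m := by
    by_contra hcon
    push Not at hcon
    have := (ord_le_iff hm t).2 hcon
    linarith
  have h5 : (NZ t : ℝ) + 1 ≤ m := by exact_mod_cast h4
  have h6 := abs_le.1 (h t ht2)
  have h7 := abs_lt.1 ht3
  have h8 : Real.log t ≤ Real.log T := Real.log_le_log (by linarith) ht1.le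
  have h9 : K * Real.log t ≤ K * Real.log T := mul_le_mul_of_nonneg_left h8 (by linarith)
  rw [abs_le]
  constructor <;> nlinarith [h2.1, h2.2, h6.1, h6.2, h7.1, h7.2]

/-- the smooth sequence -/
noncomputable def gg (M : ℝ) : ℝ := 2 * Real.pi * M * ww (Real.log M - 1)

lemma ww_anti : Antitone ww := fun a b h => by
  unfold ww
  exact Real.exp_le_exp.2 (neg_le_neg (xi_mono.monotone h))

lemma gg_mt {T : ℝ} (hT : 2 * Real.pi * Real.exp 2 ≤ T) : gg (mt T) = T ∧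
    T / (2 * Real.pi) ≤ mt T := by
  have hpi := Real.pi_pos
  have hT0 : 0 < T := lt_of_lt_of_le (by positivity) hT
  obtain ⟨x, hx⟩ : ∃ x : ℝ, x = Real.log (T / (2 * Real.pi)) - 1 := ⟨_, rfl⟩
  have hx1 : 1 ≤ x := by
    have : 2 ≤ Real.log (T / (2 * Real.pi)) := by
      rw [Real.le_log_iff_exp_le (by positivity), le_div_iff₀ (by positivity)]
      linarith
    linarith
  have hx0 : 0 < x := by linarith
  have hmt : mt T = T / (2 * Real.pi) * x := by
    unfold mt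
    rw [hx]; ring
  have hz : Real.log (mt T) - 1 = ff (Real.log x) := by
    unfold ff
    rw [hmt, Real.log_mul (by positivity) hx0.ne', Real.exp_log hx0]
    rw [hx]; ring
  have hxi : xi (Real.log (mt T) - 1) = Real.log x := by
    apply ff_mono.injective
    rw [ff_xi, hz]
  constructor
  · unfold gg ww
    rw [hxi, Real.exp_neg, Real.exp_log hx0, hmt]
    field_simp
  · rw [hmt]
    exact le_mul_of_one_le_right (by positivity) hx1

lemma gg_lip {a b : ℝ} (ha : 1 ≤ a) (hb : 1 ≤ b) : |gg b - gg a| ≤ 2 * Real.pi * ww (-1) * |b - a| := by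
  have hpi := Real.pi_pos
  have hd : ∀ M ∈ Set.Ici (1 : ℝ), HasDerivAt gg
      (2 * Real.pi * (ww (Real.log M - 1) * (1 - uu (Real.log M - 1)))) M := by
    intro M hM
    have hM0 : 0 < M := lt_of_lt_of_le one_pos hM
    have h1 : HasDerivAt (fun M => Real.log M - 1) M⁻¹ M := (Real.hasDerivAt_log hM0.ne').sub_const 1
    have h2 : HasDerivAt (ww ∘ fun M => Real.log M - 1)
        (-(uu (Real.log M - 1) * ww (Real.log M - 1)) * M⁻¹) M :=
      HasDerivAt.comp M (h₂ := ww) (ww_deriv (Real.log M - 1)) h1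
    have h3 : HasDerivAt (fun M : ℝ => 2 * Real.pi * M) (2 * Real.pi) M := by
      simpa using (hasDerivAt_id M).const_mul (2 * Real.pi)
    have h4 := h3.mul h2
    have e : 2 * Real.pi * (ww ∘ fun M => Real.log M - 1) M + 2 * Real.pi * M *
        (-(uu (Real.log M - 1) * ww (Real.log M - 1)) * M⁻¹) =
        2 * Real.pi * (ww (Real.log M - 1) * (1 - uu (Real.log M - 1))) := by
      simp only [Function.comp_apply]
      field_simp
      ring
    rw [e] at h4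
    exact h4
  have h := (convex_Ici (1 : ℝ)).norm_image_sub_le_of_norm_hasDerivWithin_le (f := gg)
    (C := 2 * Real.pi * ww (-1)) (fun M hM => (hd M hM).hasDerivWithinAt) (fun M hM => by
      have hM1 : (1 : ℝ) ≤ M := hM
      have h1 : -1 ≤ Real.log M - 1 := by
        have := Real.log_nonneg hM1
        linarith
      have h2 := ww_anti h1
      have h3 := uu_pos (Real.log M - 1)
      have h4 := uu_lt (Real.log M - 1)
      have h5 := ww_pos (Real.log M - 1)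
      have h6 : 0 ≤ 1 - uu (Real.log M - 1) := by linarith
      rw [Real.norm_eq_abs, abs_of_nonneg (by positivity)]
      apply mul_le_mul_of_nonneg_left _ (by positivity)
      nlinarith) (show a ∈ Set.Ici (1 : ℝ) from ha) (show b ∈ Set.Ici (1 : ℝ) from hb)
  rwa [Real.norm_eq_abs, Real.norm_eq_abs] at h

/-- **the ordinates are near a smooth sequence** -/
theorem ord_gg : ∃ (K : ℝ) (m₀ : ℕ), 1 ≤ K ∧ 1 ≤ m₀ ∧ ∀ m : ℕ, m₀ ≤ m → |ord m - gg m| ≤ K * Real.log m := by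
  obtain ⟨K, hK, h⟩ := rv_ord
  have hpi := Real.pi_pos
  have hev : ∀ᶠ T : ℝ in atTop, 2 * Real.pi * Real.exp 2 ≤ T ∧ 11 ≤ T ∧ K * Real.log T ^ 1 ≤ T ^ (1 / 2 : ℝ) ∧
      4 * Real.pi * Real.log T ^ 0 ≤ T ^ (1 / 2 : ℝ) ∧ 1 ≤ T / (2 * Real.pi) := by
    refine Filter.Eventually.and (eventually_ge_atTop _) (Filter.Eventually.and (eventually_ge_atTop _)
      (Filter.Eventually.and (ev_log _ _ (by norm_num)) (Filter.Eventually.and
        (ev_log _ _ (by norm_num)) ?_)))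
    filter_upwards [eventually_ge_atTop (2 * Real.pi)] with T hT
    rw [le_div_iff₀ (by positivity)]
    linarith
  obtain ⟨m₀, hm₀⟩ := (SG.ord_tendsto.eventually hev).exists_forall_of_atTop
  have hw := ww_pos (-1)
  refine ⟨2 * Real.pi * ww (-1) * (2 * K) + 1, m₀ + 1, by
    have : 0 ≤ 2 * Real.pi * ww (-1) * (2 * K) := by positivity
    linarith, by omega, fun m hm => ?_⟩
  obtain ⟨e1, e2, e3, e4, e5⟩ := hm₀ m (by omega)
  obtain ⟨T, hTd⟩ : ∃ T : ℝ, T = ord m := ⟨_, rfl⟩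
  have h1 := h m (by omega) e2
  rw [← hTd] at e1 e2 e3 e4 e5 h1 ⊢
  rw [pow_one] at e3
  rw [pow_zero, mul_one] at e4
  have hT0 : 0 < T := by linarith
  obtain ⟨hg, hg2⟩ := gg_mt e1
  have hm1 : (1 : ℝ) ≤ m := by exact_mod_cast (by omega : 1 ≤ m)
  have h2 := gg_lip (a := m) (b := mt T) hm1 (by linarith)
  rw [hg] at h2
  have hsq : T ^ (1 / 2 : ℝ) * T ^ (1 / 2 : ℝ) = T := by
    rw [← Real.rpow_add hT0]; norm_num
  have hsq0 : 0 < T ^ (1 / 2 : ℝ) := by positivity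
  have hmT : T ^ (1 / 2 : ℝ) ≤ m := by
    have a1 := (abs_le.1 h1).2
    have a2 : 2 * T ^ (1 / 2 : ℝ) ≤ T / (2 * Real.pi) := by
      rw [le_div_iff₀ (by positivity)]
      calc 2 * T ^ (1 / 2 : ℝ) * (2 * Real.pi) = T ^ (1 / 2 : ℝ) * (4 * Real.pi) := by ring
        _ ≤ T ^ (1 / 2 : ℝ) * T ^ (1 / 2 : ℝ) := mul_le_mul_of_nonneg_left e4 hsq0.le
        _ = T := hsq
    linarith
  have hlogT : Real.log T ≤ 2 * Real.log m := by
    have a1 := Real.log_le_log hsq0 hmT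
    rw [Real.log_rpow hT0] at a1
    linarith
  have hlogm : 0 ≤ Real.log m := Real.log_nonneg hm1
  calc |T - gg m| ≤ 2 * Real.pi * ww (-1) * |mt T - m| := h2
    _ ≤ 2 * Real.pi * ww (-1) * (K * (2 * Real.log m)) := by
        apply mul_le_mul_of_nonneg_left _ (by positivity)
        exact h1.trans (mul_le_mul_of_nonneg_left hlogT (by linarith))
    _ ≤ _ := by nlinarith

end Pool.Agent.K7.H75.DP
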