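import Pool.Agent.K7.H75.DP.W

/-! # Jets of combinations of translates of `w` -/

set_option autoImplicit false

namespace Pool.Agent.K7.H75.DP

open Filter Topology Polynomial

/-- Taylor's formula -/
lemma taylor (n : ℕ) : ∀ (F : ℕ → ℝ → ℝ), (∀ s x, HasDerivAt (F s) (F (s + 1) x) x) →
    ∀ (a h M : ℝ), (∀ x, |x - a| ≤ |h| → |F n x| ≤ M) →
    |F 0 (a + h) - ∑ s ∈ Finset.range n, F s a * h ^ s / (s.factorial : ℝ)| ≤ M * |h| ^ n := by
  induction n with
  | zero =>
    intro F _ a h M hM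
    simp only [Finset.range_zero, Finset.sum_empty, sub_zero, pow_zero, mul_one]
    exact hM (a + h) (by rw [add_sub_cancel_left])
  | succ n ih =>
    intro F hF a h M hM
    have hM0 : 0 ≤ M := (abs_nonneg _).trans (hM a (by rw [sub_self, abs_zero]; exact abs_nonneg _))
    have hs : ∀ t : ℝ, HasDerivAt (fun t : ℝ => F 0 (a + t) -
        ∑ s ∈ Finset.range (n + 1), F s a * t ^ s / (s.factorial : ℝ))
        (F 1 (a + t) - ∑ s ∈ Finset.range n, F (s + 1) a * t ^ s / (s.factorial : ℝ)) t := by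
      intro t
      have h1 : HasDerivAt (fun t : ℝ => F 0 (a + t)) (F 1 (a + t)) t :=
        HasDerivAt.comp_const_add a t (hF 0 (a + t))
      refine h1.sub ?_
      simp only [Finset.sum_range_succ', pow_zero]
      refine HasDerivAt.add_const _ (HasDerivAt.fun_sum fun s _ => ?_)
      have h2 := ((hasDerivAt_pow (s + 1) t).const_mul (F (s + 1) a)).div_const ((s + 1).factorial : ℝ)
      have e : F (s + 1) a * (((s + 1 : ℕ) : ℝ) * t ^ (s + 1 - 1)) / ((s + 1).factorial : ℝ) =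
          F (s + 1) a * t ^ s / (s.factorial : ℝ) := by
        rw [Nat.factorial_succ, Nat.add_sub_cancel]
        push_cast
        have : ((s.factorial : ℝ)) ≠ 0 := by positivity
        field_simp
      rw [e] at h2
      exact h2
    have hb : ∀ t ∈ Metric.closedBall (0 : ℝ) |h|,
        ‖F 1 (a + t) - ∑ s ∈ Finset.range n, F (s + 1) a * t ^ s / (s.factorial : ℝ)‖ ≤ M * |h| ^ n := by
      intro t ht
      rw [mem_closedBall_zero_iff, Real.norm_eq_abs] at ht
      rw [Real.norm_eq_abs]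
      have h1 := ih (fun s => F (s + 1)) (fun s x => hF (s + 1) x) a t M (fun x hx => hM x (hx.trans ht))
      refine h1.trans ?_
      exact mul_le_mul_of_nonneg_left (pow_le_pow_left₀ (abs_nonneg _) ht n) hM0
    have hmv := (convex_closedBall (0 : ℝ) |h|).norm_image_sub_le_of_norm_hasDerivWithin_le
      (fun t _ => (hs t).hasDerivWithinAt) hb
      (Metric.mem_closedBall_self (abs_nonneg h))
      (show h ∈ Metric.closedBall (0 : ℝ) |h| by rw [mem_closedBall_zero_iff, Real.norm_eq_abs])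
    rw [sub_zero, Real.norm_eq_abs, Real.norm_eq_abs] at hmv
    have h0 : F 0 (a + 0) - ∑ s ∈ Finset.range (n + 1), F s a * (0 : ℝ) ^ s / (s.factorial : ℝ) = 0 := by
      rw [Finset.sum_range_succ', add_zero]
      simp
    rw [h0, sub_zero] at hmv
    rw [pow_succ, ← mul_assoc]
    exact hmv

/-- an invertible matrix is bounded below -/
lemma mat_lower {k : ℕ} (A : Matrix (Fin k) (Fin k) ℝ) (hA : A.det ≠ 0) : ∃ c : ℝ, 0 < c ∧
    ∀ (x : Fin k → ℝ) (m : ℝ), (∀ i, |∑ j, A i j * x j| ≤ m) → ∀ j, c * |x j| ≤ m := by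
  obtain ⟨S, hS⟩ : ∃ S : ℝ, S = ∑ j, ∑ i, |A⁻¹ j i| := ⟨_, rfl⟩
  have hS0 : 0 ≤ S := by
    rw [hS]
    exact Finset.sum_nonneg fun j _ => Finset.sum_nonneg fun i _ => abs_nonneg _
  refine ⟨1 / (1 + S), by positivity, fun x m hm j => ?_⟩
  have hm0 : 0 ≤ m := (abs_nonneg _).trans (hm j)
  have h1 : x = A⁻¹.mulVec (A.mulVec x) := by
    rw [Matrix.mulVec_mulVec, Matrix.nonsing_inv_mul A (Ne.isUnit hA), Matrix.one_mulVec]
  have h2 : |x j| ≤ S * m := by
    have h3 : x j = ∑ i, A⁻¹ j i * (∑ l, A i l * x l) := congrFun h1 j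
    rw [h3]
    refine (Finset.abs_sum_le_sum_abs _ _).trans ?_
    calc ∑ i, |A⁻¹ j i * ∑ l, A i l * x l| ≤ ∑ i, |A⁻¹ j i| * m := by
          refine Finset.sum_le_sum fun i _ => ?_
          rw [abs_mul]
          exact mul_le_mul_of_nonneg_left (hm i) (abs_nonneg _)
      _ = (∑ i, |A⁻¹ j i|) * m := by rw [Finset.sum_mul]
      _ ≤ S * m := by
          apply mul_le_mul_of_nonneg_right _ hm0
          rw [hS]
          exact Finset.single_le_sum (f := fun j => ∑ i, |A⁻¹ j i|)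
            (fun j _ => Finset.sum_nonneg fun i _ => abs_nonneg _) (Finset.mem_univ j)
  rw [div_mul_eq_mul_div, one_mul, div_le_iff₀ (by linarith)]
  calc |x j| ≤ S * m := h2
    _ ≤ m * (1 + S) := by nlinarith

/-- the Vandermonde matrix -/
lemma vand_lower {k : ℕ} (β : Fin k → ℝ) (hβ : Function.Injective β) : ∃ c : ℝ, 0 < c ∧
    ∀ (x : Fin k → ℝ) (m : ℝ), (∀ s : Fin k, |∑ j, β j ^ (s : ℕ) * x j| ≤ m) → ∀ j, c * |x j| ≤ m := by
  have hdet : ((Matrix.vandermonde β).transpose).det ≠ 0 := by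
    rw [Matrix.det_transpose]
    exact Matrix.det_vandermonde_ne_zero_iff.2 hβ
  obtain ⟨c, hc, h⟩ := mat_lower _ hdet
  refine ⟨c, hc, fun x m hm => h x m fun s => ?_⟩
  simpa [Matrix.vandermonde_apply, Matrix.transpose_apply] using hm s

/-- the Pascal matrix -/
lemma pascal_lower (k : ℕ) : ∃ c : ℝ, 0 < c ∧
    ∀ (x : Fin k → ℝ) (m : ℝ), (∀ r : Fin k, |∑ s : Fin k,
      (-1) ^ ((r : ℕ) + s) * (((r : ℕ) + s).factorial : ℝ) / ((s : ℕ).factorial : ℝ) * x s| ≤ m) →
      ∀ j, c * |x j| ≤ m := by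
  obtain ⟨p, hp⟩ : ∃ p : Fin k → ℝ[X], ∀ r : Fin k, p r = (ascPochhammer ℝ (r : ℕ)).comp (X + C 1) :=
    ⟨_, fun r => rfl⟩
  have hev : ∀ (r : Fin k) (s : ℕ), (p r).eval (s : ℝ) = (((r : ℕ) + s).factorial : ℝ) / (s.factorial : ℝ) := by
    intro r s
    rw [hp, eval_comp, eval_add, eval_X, eval_C]
    have h1 : ((s : ℝ) + 1) = ((s + 1 : ℕ) : ℝ) := by push_cast; rfl
    rw [h1, ← ascPochhammer_eval_cast, ascPochhammer_nat_eq_ascFactorial, eq_div_iff (by positivity)]
    have h2 := Nat.factorial_mul_ascFactorial s (r : ℕ)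
    rw [add_comm (r : ℕ) s, ← h2]
    push_cast
    ring
  have hdet : (Matrix.of fun r s : Fin k => (p r).eval ((s : ℕ) : ℝ)).det ≠ 0 := by
    have h1 := Matrix.det_eval_matrixOfPolynomials_eq_det_vandermonde (fun s : Fin k => ((s : ℕ) : ℝ)) p
      (fun i => by
        rw [hp, natDegree_comp, ascPochhammer_natDegree, natDegree_X_add_C, mul_one])
      (fun i => by
        rw [hp]
        exact (monic_ascPochhammer ℝ i).comp_X_add_C 1)
    have h2 : (Matrix.of fun r s : Fin k => (p r).eval ((s : ℕ) : ℝ)) =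
        (Matrix.of fun s r : Fin k => (p r).eval ((s : ℕ) : ℝ)).transpose := by
      ext r s
      rfl
    rw [h2, Matrix.det_transpose, ← h1]
    apply Matrix.det_vandermonde_ne_zero_iff.2
    intro a b hab
    have hab' : ((a : ℕ) : ℝ) = ((b : ℕ) : ℝ) := hab
    exact Fin.ext (by exact_mod_cast hab')
  obtain ⟨c, hc, h⟩ := mat_lower _ hdet
  refine ⟨c, hc, fun x m hm j => ?_⟩
  have h3 := h (fun s => (-1) ^ (s : ℕ) * x s) m (fun r => by
    have h4 := hm r
    have h5 : ∑ s : Fin k, (-1) ^ ((r : ℕ) + s) * (((r : ℕ) + s).factorial : ℝ) /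
        ((s : ℕ).factorial : ℝ) * x s = (-1) ^ (r : ℕ) * ∑ s : Fin k,
        (Matrix.of fun r s : Fin k => (p r).eval ((s : ℕ) : ℝ)) r s * ((-1) ^ (s : ℕ) * x s) := by
      rw [Finset.mul_sum]
      refine Finset.sum_congr rfl fun s _ => ?_
      rw [Matrix.of_apply, hev, pow_add]
      ring
    rw [h5, abs_mul, abs_pow, abs_neg, abs_one, one_pow, one_mul] at h4
    exact h4) j
  rw [abs_mul, abs_pow, abs_neg, abs_one, one_pow, one_mul] at h3
  exact h3

end Pool.Agent.K7.H75.DP
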