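import Pool.Agent.K7.H75.DP.JT

/-! # Lower bound for the jets of combinations of translates of `w` -/

set_option autoImplicit false

namespace Pool.Agent.K7.H75.DP

open Filter Topology Polynomial

/-- bounds for the derivatives of `w` -/
lemma W_bound (n : ℕ) {θ : ℝ} (hθ : 0 < θ) : ∃ z₁ : ℝ, 1 ≤ z₁ ∧ ∀ z, z₁ ≤ z → ∀ s < n,
    |z ^ (s + 1) * W s z - (-1) ^ s * s.factorial| ≤ θ := by
  have h1 : ∀ᶠ z : ℝ in atTop, ∀ s ∈ Finset.range n,
      |z ^ (s + 1) * W s z - (-1) ^ s * s.factorial| ≤ θ := by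
    rw [Filter.eventually_all_finset]
    intro s _
    have h2 := (W_tendsto s).eventually (Metric.closedBall_mem_nhds _ hθ)
    filter_upwards [h2] with z hz
    have hz' : dist (z ^ (s + 1) * W s z) ((-1) ^ s * s.factorial) ≤ θ := hz
    rwa [Real.dist_eq] at hz'
  obtain ⟨z₁, hz₁⟩ := h1.exists_forall_of_atTop
  exact ⟨max z₁ 1, le_max_right _ _, fun z hz s hs =>
    hz₁ z ((le_max_left _ _).trans hz) s (Finset.mem_range.2 hs)⟩

/-- **jets** -/
theorem jets {k : ℕ} (β : Fin k → ℝ) (hβ : Function.Injective β) : ∃ c z₀ : ℝ, 0 < c ∧ 1 ≤ z₀ ∧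
    ∀ (z : ℝ) (C : Fin k → ℝ) (M : ℝ), z₀ ≤ z → (∀ r < k, |∑ j, C j * W r (z + β j)| ≤ M) →
    ∀ j, c * |C j| ≤ M * z ^ (2 * k) := by
  obtain ⟨c₁, hc₁, hvand⟩ := vand_lower β hβ
  obtain ⟨c₂, hc₂, hpas⟩ := pascal_lower k
  obtain ⟨θ, hθ⟩ : ∃ θ : ℝ, θ = c₂ / (2 * (k + 1)) := ⟨_, rfl⟩
  have hk1 : (0 : ℝ) < k + 1 := by positivity
  have hθ0 : 0 < θ := by rw [hθ]; positivity
  obtain ⟨z₁, hz₁1, hz₁⟩ := W_bound (2 * k + 1) (θ := min θ 1) (lt_min hθ0 one_pos)
  obtain ⟨K₂, hK₂⟩ : ∃ K₂ : ℝ, K₂ = ((2 * k).factorial : ℝ) + 1 := ⟨_, rfl⟩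
  have hK₂0 : 0 < K₂ := by rw [hK₂]; positivity
  have hWb : ∀ y, z₁ ≤ y → ∀ s ≤ 2 * k, |W s y| ≤ K₂ / y ^ (s + 1) := by
    intro y hy s hs
    have hy0 : 0 < y := by linarith
    have h1 := hz₁ y hy s (by omega)
    have h2 : |y ^ (s + 1) * W s y| ≤ K₂ := by
      have h3 : |(-1 : ℝ) ^ s * s.factorial| = s.factorial := by
        rw [abs_mul, abs_pow, abs_neg, abs_one, one_pow, one_mul, Nat.abs_cast]
      have h4 : (s.factorial : ℝ) ≤ ((2 * k).factorial : ℝ) := by
        exact_mod_cast Nat.factorial_le hs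
      have h5 := abs_sub_abs_le_abs_sub (y ^ (s + 1) * W s y) ((-1) ^ s * s.factorial)
      rw [h3] at h5
      have h6 : min θ 1 ≤ 1 := min_le_right _ _
      rw [hK₂]
      linarith
    rw [abs_mul, abs_of_pos (by positivity : 0 < y ^ (s + 1))] at h2
    rw [le_div_iff₀ (by positivity), mul_comm]
    exact h2
  obtain ⟨b, hb⟩ : ∃ b : ℝ, b = 1 + ∑ j, |β j| := ⟨_, rfl⟩
  have hbj : ∀ j, |β j| ≤ b := fun j => by
    rw [hb]
    have := Finset.single_le_sum (f := fun j => |β j|) (fun j _ => abs_nonneg _) (Finset.mem_univ j)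
    linarith
  have hb1 : 1 ≤ b := by
    rw [hb]
    have : 0 ≤ ∑ j, |β j| := Finset.sum_nonneg fun j _ => abs_nonneg _
    linarith
  obtain ⟨K₁, hK₁⟩ : ∃ K₁ : ℝ, K₁ = K₂ * 2 ^ (2 * k) * b ^ k := ⟨_, rfl⟩
  have hK₁0 : 0 < K₁ := by rw [hK₁]; positivity
  refine ⟨c₁ * c₂ / 4, 2 * z₁ + 2 * b + 4 * k * K₁ / (c₁ * c₂), by positivity, ?_,
    fun z C M hz hM j0 => ?_⟩
  · have : 0 ≤ 4 * k * K₁ / (c₁ * c₂) := by positivity
    linarith
  have hkpos : 0 < k := j0.pos
  have hkr : (0 : ℝ) < k := by exact_mod_cast hkpos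
  have h4k : 0 ≤ 4 * k * K₁ / (c₁ * c₂) := by positivity
  have hzz₁ : 2 * z₁ ≤ z := by linarith
  have hz1 : 1 ≤ z := by linarith
  have hz0 : 0 < z := by linarith
  have hzb : 2 * b ≤ z := by linarith
  have hzK : 4 * k * K₁ / (c₁ * c₂) ≤ z := by linarith
  have : Nonempty (Fin k) := ⟨j0⟩
  have hM0 : 0 ≤ M := (abs_nonneg _).trans (hM 0 hkpos)
  -- the remainders
  have hrem : ∀ r < k, ∀ j, |W r (z + β j) - ∑ s ∈ Finset.range k, W (r + s) z * β j ^ s / (s.factorial : ℝ)| ≤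
      K₁ / z ^ (r + 1 + k) := by
    intro r hr j
    have h1 := taylor k (fun s => W (r + s)) (fun s x => W_deriv (r + s) x) z (β j)
      (K₂ * 2 ^ (2 * k) / z ^ (r + 1 + k)) (fun x hx => by
        have hx2 := hx.trans (hbj j)
        have hx3 := abs_le.1 hx2
        have hxz : z / 2 ≤ x := by linarith [hx3.1]
        have h2 := hWb x (by linarith) (r + k) (by omega)
        refine h2.trans ?_
        have hz2 : 0 < z / 2 := by positivity
        calc K₂ / x ^ (r + k + 1) ≤ K₂ / (z / 2) ^ (r + k + 1) := by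
              apply div_le_div_of_nonneg_left hK₂0.le (by positivity)
              exact pow_le_pow_left₀ hz2.le hxz _
          _ = K₂ * 2 ^ (r + k + 1) / z ^ (r + 1 + k) := by
              rw [div_pow]
              have e : r + k + 1 = r + 1 + k := by ring
              rw [e]
              field_simp
          _ ≤ K₂ * 2 ^ (2 * k) / z ^ (r + 1 + k) := by
              apply div_le_div_of_nonneg_right _ (by positivity)
              apply mul_le_mul_of_nonneg_left _ hK₂0.le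
              exact pow_le_pow_right₀ (by norm_num) (by omega))
    simp only [add_zero] at h1
    refine h1.trans ?_
    rw [hK₁, div_mul_eq_mul_div]
    apply div_le_div_of_nonneg_right _ (by positivity)
    exact mul_le_mul_of_nonneg_left (pow_le_pow_left₀ (abs_nonneg _) (hbj j) k) (by positivity)
  -- the moments
  obtain ⟨N, hN⟩ : ∃ N : Fin k → ℝ, ∀ s, N s = (∑ j, β j ^ (s : ℕ) * C j) / z ^ (s : ℕ) :=
    ⟨_, fun s => rfl⟩
  obtain ⟨jm, hjm⟩ := Finite.exists_max fun j => |C j|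
  obtain ⟨sm, hsm⟩ := Finite.exists_max fun s => |N s|
  obtain ⟨Cs, hCs⟩ : ∃ Cs : ℝ, Cs = |C jm| := ⟨_, rfl⟩
  obtain ⟨ns, hns⟩ : ∃ ns : ℝ, ns = |N sm| := ⟨_, rfl⟩
  have hCs0 : 0 ≤ Cs := by rw [hCs]; exact abs_nonneg _
  have hns0 : 0 ≤ ns := by rw [hns]; exact abs_nonneg _
  have hCj : ∀ j, |C j| ≤ Cs := fun j => by rw [hCs]; exact hjm j
  have hNs : ∀ s, |N s| ≤ ns := fun s => by rw [hns]; exact hsm s
  have hmainr : ∀ r : Fin k, |∑ s : Fin k, (-1) ^ ((r : ℕ) + s) * (((r : ℕ) + s).factorial : ℝ) /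
      ((s : ℕ).factorial : ℝ) * N s| ≤ z ^ k * M + k * Cs * (K₁ / z ^ k) + c₂ / 2 * ns := by
    intro r
    obtain ⟨a, ha⟩ : ∃ a : Fin k → ℝ, ∀ s : Fin k, a s = z ^ ((r : ℕ) + s + 1) * W (r + s) z /
      ((s : ℕ).factorial : ℝ) := ⟨_, fun s => rfl⟩
    have ha1 : ∀ s : Fin k, |(-1) ^ ((r : ℕ) + s) * (((r : ℕ) + s).factorial : ℝ) /
        ((s : ℕ).factorial : ℝ) - a s| ≤ θ := by
      intro s
      rw [ha, ← sub_div, abs_div, Nat.abs_cast, abs_sub_comm]
      have h1 := hz₁ z (by linarith) (r + s) (by omega)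
      have h2 : (1 : ℝ) ≤ ((s : ℕ).factorial : ℝ) := by
        exact_mod_cast Nat.succ_le_of_lt (Nat.factorial_pos (s : ℕ))
      exact (div_le_self (abs_nonneg _) h2).trans (h1.trans (min_le_left _ _))
    -- the exact formula
    have hform : ∑ s : Fin k, a s * N s = z ^ ((r : ℕ) + 1) * ∑ j, C j *
        (∑ s ∈ Finset.range k, W (r + s) z * β j ^ s / (s.factorial : ℝ)) := by
      have h1 : ∀ j, ∑ s ∈ Finset.range k, W (r + s) z * β j ^ s / (s.factorial : ℝ) =
          ∑ s : Fin k, W (r + s) z * β j ^ (s : ℕ) / ((s : ℕ).factorial : ℝ) := fun j =>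
        (Fin.sum_univ_eq_sum_range (fun s => W (r + s) z * β j ^ s / (s.factorial : ℝ)) k).symm
      simp only [h1]
      rw [Finset.mul_sum]
      simp only [Finset.mul_sum]
      rw [Finset.sum_comm]
      refine Finset.sum_congr rfl fun s _ => ?_
      rw [ha, hN, Finset.sum_div, Finset.mul_sum]
      refine Finset.sum_congr rfl fun j _ => ?_
      have h2 : z ^ ((r : ℕ) + s + 1) = z ^ ((r : ℕ) + 1) * z ^ (s : ℕ) := by ring
      rw [h2]
      field_simp
    have h3 : |∑ s : Fin k, a s * N s| ≤ z ^ k * M + k * Cs * (K₁ / z ^ k) := by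
      rw [hform]
      have h4 : z ^ ((r : ℕ) + 1) * ∑ j, C j * (∑ s ∈ Finset.range k, W (r + s) z * β j ^ s / (s.factorial : ℝ)) =
          z ^ ((r : ℕ) + 1) * (∑ j, C j * W r (z + β j)) - z ^ ((r : ℕ) + 1) * ∑ j, C j *
          (W r (z + β j) - ∑ s ∈ Finset.range k, W (r + s) z * β j ^ s / (s.factorial : ℝ)) := by
        rw [← mul_sub, ← Finset.sum_sub_distrib]
        congr 1
        exact Finset.sum_congr rfl fun j _ => by ring
      rw [h4]
      refine (abs_sub _ _).trans (add_le_add ?_ ?_)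
      · rw [abs_mul, abs_of_pos (by positivity : 0 < z ^ ((r : ℕ) + 1))]
        exact mul_le_mul (pow_le_pow_right₀ hz1 (by omega)) (hM r r.2) (abs_nonneg _) (by positivity)
      · rw [abs_mul, abs_of_pos (by positivity : 0 < z ^ ((r : ℕ) + 1))]
        have h5 : |∑ j, C j * (W r (z + β j) - ∑ s ∈ Finset.range k, W (r + s) z * β j ^ s /
            (s.factorial : ℝ))| ≤ k * Cs * (K₁ / z ^ ((r : ℕ) + 1 + k)) := by
          refine (Finset.abs_sum_le_sum_abs _ _).trans ?_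
          calc _ ≤ ∑ j : Fin k, Cs * (K₁ / z ^ ((r : ℕ) + 1 + k)) := by
                refine Finset.sum_le_sum fun j _ => ?_
                rw [abs_mul]
                exact mul_le_mul (hCj j) (hrem r r.2 j) (abs_nonneg _) hCs0
            _ = _ := by
                rw [Finset.sum_const, Finset.card_univ, Fintype.card_fin, nsmul_eq_mul]
                ring
        calc z ^ ((r : ℕ) + 1) * _ ≤ z ^ ((r : ℕ) + 1) * (k * Cs * (K₁ / z ^ ((r : ℕ) + 1 + k))) :=
              mul_le_mul_of_nonneg_left h5 (by positivity)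
          _ = k * Cs * (K₁ / z ^ k) := by
              rw [pow_add z ((r : ℕ) + 1) k]
              field_simp
    have h6 : ∑ s : Fin k, (-1) ^ ((r : ℕ) + s) * (((r : ℕ) + s).factorial : ℝ) /
        ((s : ℕ).factorial : ℝ) * N s = ∑ s : Fin k, a s * N s + ∑ s : Fin k,
        ((-1) ^ ((r : ℕ) + s) * (((r : ℕ) + s).factorial : ℝ) / ((s : ℕ).factorial : ℝ) - a s) * N s := by
      rw [← Finset.sum_add_distrib]
      exact Finset.sum_congr rfl fun s _ => by ring
    rw [h6]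
    refine (abs_add_le _ _).trans (add_le_add h3 ?_)
    refine (Finset.abs_sum_le_sum_abs _ _).trans ?_
    calc _ ≤ ∑ s : Fin k, θ * ns := by
          refine Finset.sum_le_sum fun s _ => ?_
          rw [abs_mul]
          exact mul_le_mul (ha1 s) (hNs s) (abs_nonneg _) hθ0.le
      _ = k * θ * ns := by
          rw [Finset.sum_const, Finset.card_univ, Fintype.card_fin, nsmul_eq_mul]
          ring
      _ ≤ c₂ / 2 * ns := by
          apply mul_le_mul_of_nonneg_right _ hns0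
          have h7 : (k + 1) * θ = c₂ / 2 := by rw [hθ]; field_simp
          nlinarith
  have hn := hpas N _ hmainr sm
  rw [← hns] at hn
  have hzk : 0 < z ^ k := by positivity
  have hn2 : ns ≤ 2 / c₂ * (z ^ k * M + k * Cs * (K₁ / z ^ k)) := by
    rw [div_mul_eq_mul_div, le_div_iff₀ hc₂]
    nlinarith
  have hv := hvand C (ns * (z ^ k / z)) (fun s => by
    have h1 : ∑ j, β j ^ (s : ℕ) * C j = N s * z ^ (s : ℕ) := by
      rw [hN]
      field_simp
    rw [h1, abs_mul, abs_of_pos (by positivity : 0 < z ^ (s : ℕ))]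
    apply mul_le_mul (hNs s) _ (by positivity) hns0
    rw [le_div_iff₀ hz0, ← pow_succ]
    exact pow_le_pow_right₀ hz1 s.2) jm
  rw [← hCs] at hv
  have h8 : c₁ * Cs ≤ 2 / c₂ * (z ^ (2 * k) * M) + c₁ / 2 * Cs := by
    refine hv.trans ?_
    have h9 : 0 ≤ z ^ k / z := by positivity
    calc ns * (z ^ k / z) ≤ 2 / c₂ * (z ^ k * M + k * Cs * (K₁ / z ^ k)) * (z ^ k / z) :=
          mul_le_mul_of_nonneg_right hn2 h9
      _ = 2 / c₂ * (z ^ (2 * k) * M / z) + 2 / c₂ * (k * K₁) * (1 / z) * Cs := by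
          rw [two_mul k, pow_add]
          field_simp
      _ ≤ 2 / c₂ * (z ^ (2 * k) * M) + c₁ / 2 * Cs := by
          apply add_le_add
          · apply mul_le_mul_of_nonneg_left _ (by positivity)
            exact div_le_self (by positivity) hz1
          · apply mul_le_mul_of_nonneg_right _ hCs0
            rw [mul_one_div, div_le_iff₀ hz0]
            have h10 : 4 * k * K₁ ≤ z * (c₁ * c₂) := by
              rwa [div_le_iff₀ (by positivity)] at hzK
            rw [div_mul_eq_mul_div, div_le_iff₀ hc₂]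
            nlinarith
  have h11 : c₁ / 2 * Cs ≤ 2 / c₂ * (z ^ (2 * k) * M) := by linarith
  calc c₁ * c₂ / 4 * |C j0| ≤ c₁ * c₂ / 4 * Cs := mul_le_mul_of_nonneg_left (hCj j0) (by positivity)
    _ = c₂ / 2 * (c₁ / 2 * Cs) := by ring
    _ ≤ c₂ / 2 * (2 / c₂ * (z ^ (2 * k) * M)) := mul_le_mul_of_nonneg_left h11 (by positivity)
    _ = M * z ^ (2 * k) := by field_simp

end Pool.Agent.K7.H75.DP
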