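import Pool.Agent.K7.H75.DP.JU

/-! # Sublevel sets of combinations of translates of `w` -/

set_option autoImplicit false

namespace Pool.Agent.K7.H75.DP

open Filter Topology Polynomial

/-- repeated use of the mean value theorem -/
lemma rmvt (r : ℕ) : ∀ (F : ℕ → ℝ → ℝ), (∀ s x, HasDerivAt (F s) (F (s + 1) x) x) →
    ∀ (ε s : ℝ) (y : ℕ → ℝ), 0 < s → (∀ i, i + 1 < 2 ^ r → y i + s ≤ y (i + 1)) →
    (∀ i < 2 ^ r, |F 0 (y i)| ≤ ε) → ∃ x, y 0 ≤ x ∧ x ≤ y (2 ^ r - 1) ∧ |F r x| ≤ ε * (2 / s) ^ r := by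
  induction r with
  | zero =>
    intro F _ ε s y _ _ h
    exact ⟨y 0, le_rfl, by simp, by simpa using h 0 (by norm_num)⟩
  | succ r ih =>
    intro F hF ε s y hs hy h
    have hpow : 2 ^ (r + 1) = 2 * 2 ^ r := by ring
    have h2r : 1 ≤ 2 ^ r := Nat.one_le_two_pow
    have h1 : ∀ i : ℕ, ∃ x : ℝ, i < 2 ^ r → y (2 * i) ≤ x ∧ x ≤ y (2 * i + 1) ∧ |F 1 x| ≤ ε * (2 / s) := by
      intro i
      by_cases hi : i < 2 ^ r
      · have h3 := hy (2 * i) (by omega)
        obtain ⟨x, hx, hx2⟩ := exists_hasDerivAt_eq_slope (F 0) (F 1)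
          (by linarith : y (2 * i) < y (2 * i + 1))
          (fun t _ => (hF 0 t).continuousAt.continuousWithinAt) (fun t _ => hF 0 t)
        refine ⟨x, fun _ => ⟨hx.1.le, hx.2.le, ?_⟩⟩
        rw [hx2, abs_div, abs_of_pos (by linarith : 0 < y (2 * i + 1) - y (2 * i)),
          div_le_iff₀ (by linarith)]
        have h4 : |F 0 (y (2 * i + 1)) - F 0 (y (2 * i))| ≤ ε + ε :=
          (abs_sub _ _).trans (add_le_add (h (2 * i + 1) (by omega)) (h (2 * i) (by omega)))
        have hε : 0 ≤ ε := (abs_nonneg _).trans (h 0 (by omega))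
        calc |F 0 (y (2 * i + 1)) - F 0 (y (2 * i))| ≤ ε * (2 / s) * s := by
              rw [mul_assoc, div_mul_cancel₀ _ hs.ne']; linarith
          _ ≤ ε * (2 / s) * (y (2 * i + 1) - y (2 * i)) :=
              mul_le_mul_of_nonneg_left (by linarith) (by positivity)
      · exact ⟨0, fun h' => absurd h' hi⟩
    choose ξ hξ using h1
    obtain ⟨x, hx1, hx2, hx3⟩ := ih (fun s => F (s + 1)) (fun s x => hF (s + 1) x) (ε * (2 / s)) s ξ hs
      (fun i hi => by
        have a1 := (hξ i (by omega)).2.1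
        have a2 := (hξ (i + 1) hi).1
        have a3 := hy (2 * i + 1) (by omega)
        have e : 2 * i + 1 + 1 = 2 * (i + 1) := by ring
        rw [e] at a3
        linarith)
      (fun i hi => (hξ i hi).2.2)
    refine ⟨x, (hξ 0 (by omega)).1.trans hx1, hx2.trans ?_, ?_⟩
    · have a1 := (hξ (2 ^ r - 1) (by omega)).2.1
      have e : 2 * (2 ^ r - 1) + 1 = 2 ^ (r + 1) - 1 := by omega
      rw [e] at a1
      exact a1
    · refine hx3.trans (le_of_eq ?_)
      rw [pow_succ]
      ring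

/-- a large set of natural numbers has well spaced elements -/
lemma spaced (F : Finset ℕ) (S q : ℕ) (h : (q - 1) * S < F.card) : ∃ y : ℕ → ℕ,
    (∀ i < q, y i ∈ F) ∧ ∀ i, i + 1 < q → y i + S ≤ y (i + 1) := by
  classical
  have hlt : ∀ i < q, i * S < F.card := fun i hi =>
    lt_of_le_of_lt (Nat.mul_le_mul_right S (by omega)) h
  have hmono : ∀ (a n : ℕ) (ha : a + n < F.card),
      F.orderEmbOfFin rfl ⟨a, by omega⟩ + n ≤ F.orderEmbOfFin rfl ⟨a + n, ha⟩ := by
    intro a n
    induction n with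
    | zero => intro _; exact le_rfl
    | succ n ih =>
      intro ha
      have h1 := ih (by omega)
      have h2 : F.orderEmbOfFin rfl ⟨a + n, by omega⟩ < F.orderEmbOfFin rfl ⟨a + (n + 1), ha⟩ := by
        rw [OrderEmbedding.lt_iff_lt]
        exact Fin.mk_lt_mk.2 (by omega)
      omega
  refine ⟨fun i => if h : i * S < F.card then F.orderEmbOfFin rfl ⟨i * S, h⟩ else 0, fun i hi => ?_,
    fun i hi => ?_⟩
  · simp only [dif_pos (hlt i hi)]
    exact Finset.orderEmbOfFin_mem F rfl _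
  · simp only [dif_pos (hlt i (by omega)), dif_pos (hlt (i + 1) hi)]
    have h1 : i * S + S < F.card := by
      have := hlt (i + 1) hi
      linarith
    have h2 := hmono (i * S) S h1
    have e : (⟨(i + 1) * S, hlt (i + 1) hi⟩ : Fin F.card) = ⟨i * S + S, h1⟩ := by
      apply Fin.ext
      show (i + 1) * S = i * S + S
      ring
    rw [e]
    exact h2

end Pool.Agent.K7.H75.DP
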