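import Mathlib

/-! # The function `w` with `1 / w - log w = z` and its derivatives -/

set_option autoImplicit false

namespace Pool.Agent.K7.H75.DP

open Filter Topology Polynomial

/-- the function `e^x + x` -/
noncomputable def ff (x : ℝ) : ℝ := Real.exp x + x

lemma ff_mono : StrictMono ff := fun _ _ h => add_lt_add (Real.exp_lt_exp.2 h) h

lemma ff_cont : Continuous ff := Real.continuous_exp.add continuous_id

lemma ff_surj : Function.Surjective ff := by
  refine ff_cont.surjective ?_ ?_
  · exact tendsto_atTop_mono (fun x => by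
      have := Real.exp_pos x
      show x ≤ Real.exp x + x
      linarith) tendsto_id
  · refine tendsto_atBot_mono' atBot ?_ (tendsto_atBot_add_const_right atBot (1 : ℝ) tendsto_id)
    filter_upwards [eventually_le_atBot (0 : ℝ)] with x hx
    have := Real.exp_le_one_iff.2 hx
    show Real.exp x + x ≤ x + 1
    linarith

/-- the inverse of `e^x + x` -/
noncomputable def xi : ℝ → ℝ := (ff_mono.orderIsoOfSurjective ff ff_surj).symm

lemma ff_xi (z : ℝ) : ff (xi z) = z := (ff_mono.orderIsoOfSurjective ff ff_surj).apply_symm_apply z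

lemma xi_cont : Continuous xi := (ff_mono.orderIsoOfSurjective ff ff_surj).symm.continuous

lemma xi_mono : StrictMono xi := (ff_mono.orderIsoOfSurjective ff ff_surj).symm.strictMono

lemma xi_tendsto : Tendsto xi atTop atTop :=
  (ff_mono.orderIsoOfSurjective ff ff_surj).symm.tendsto_atTop

lemma xi_deriv (z : ℝ) : HasDerivAt xi (1 / (1 + Real.exp (xi z))) z := by
  have h1 : HasDerivAt ff (Real.exp (xi z) + 1) (xi z) :=
    (Real.hasDerivAt_exp _).add (hasDerivAt_id _)
  have h2 : Real.exp (xi z) + 1 ≠ 0 := by positivity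
  have h3 := HasDerivAt.of_local_left_inverse (f := ff) (g := xi) xi_cont.continuousAt h1 h2
    (Eventually.of_forall ff_xi)
  rw [one_div, add_comm 1]
  exact h3

/-- the function `w` -/
noncomputable def ww (z : ℝ) : ℝ := Real.exp (-xi z)

/-- the function `u = w / (1 + w)` -/
noncomputable def uu (z : ℝ) : ℝ := ww z / (1 + ww z)

lemma ww_pos (z : ℝ) : 0 < ww z := Real.exp_pos _

lemma uu_pos (z : ℝ) : 0 < uu z := div_pos (ww_pos z) (by linarith [ww_pos z])

lemma uu_lt (z : ℝ) : uu z < 1 := by
  unfold uu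
  rw [div_lt_one (by linarith [ww_pos z])]
  linarith [ww_pos z]

lemma exp_xi (z : ℝ) : Real.exp (xi z) = 1 / ww z := by
  unfold ww
  rw [Real.exp_neg, one_div, inv_inv]

lemma ww_eq (z : ℝ) : 1 / ww z - Real.log (ww z) = z := by
  have h := ff_xi z
  unfold ff at h
  rw [exp_xi] at h
  have : Real.log (ww z) = -xi z := Real.log_exp _
  rw [this]
  linarith

lemma ww_deriv (z : ℝ) : HasDerivAt ww (-(uu z * ww z)) z := by
  have h1 : HasDerivAt ww (Real.exp (-xi z) * -(1 / (1 + Real.exp (xi z)))) z :=
    ((xi_deriv z).neg).exp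
  have h2 : Real.exp (-xi z) * -(1 / (1 + Real.exp (xi z))) = -(uu z * ww z) := by
    have hw := ww_pos z
    show ww z * -(1 / (1 + Real.exp (xi z))) = _
    rw [exp_xi]
    unfold uu
    field_simp
    ring
  rw [h2] at h1
  exact h1

lemma uu_deriv (z : ℝ) : HasDerivAt uu (uu z ^ 3 - uu z ^ 2) z := by
  have hw := ww_pos z
  have h1 : HasDerivAt uu ((-(uu z * ww z) * (1 + ww z) - ww z * -(uu z * ww z)) / (1 + ww z) ^ 2) z :=
    (ww_deriv z).div ((ww_deriv z).const_add 1) (by positivity)
  have h2 : (-(uu z * ww z) * (1 + ww z) - ww z * -(uu z * ww z)) / (1 + ww z) ^ 2 =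
      uu z ^ 3 - uu z ^ 2 := by
    unfold uu
    field_simp
    ring
  rw [h2] at h1
  exact h1

/-- the polynomials of the derivatives of `w` -/
noncomputable def pp : ℕ → ℝ[X]
  | 0 => 1
  | s + 1 => -(X * pp s) + (X ^ 3 - X ^ 2) * derivative (pp s)

/-- the polynomials of the derivatives of `w`, reduced -/
noncomputable def qq : ℕ → ℝ[X]
  | 0 => 1
  | s + 1 => -qq s + (X - 1) * ((s : ℝ[X]) * qq s + X * derivative (qq s))

lemma pp_eq (s : ℕ) : pp s = X ^ s * qq s := by
  induction s with
  | zero => simp [pp, qq]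
  | succ s ih =>
    rw [pp, qq, ih, derivative_mul, derivative_X_pow]
    rcases s with _ | s
    · simp
      ring
    · simp only [Nat.add_sub_cancel, Nat.cast_add, Nat.cast_one, map_add, map_natCast, map_one]
      ring

lemma qq_zero (s : ℕ) : (qq s).eval 0 = (-1) ^ s * (s.factorial : ℝ) := by
  induction s with
  | zero => simp [qq]
  | succ s ih =>
    rw [qq]
    simp only [eval_add, eval_neg, eval_mul, eval_sub, eval_X, eval_one, eval_natCast, ih]
    rw [Nat.factorial_succ]
    push_cast
    ring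

/-- the derivatives of `w` -/
noncomputable def W (s : ℕ) (z : ℝ) : ℝ := ww z * (pp s).eval (uu z)

lemma W_zero (z : ℝ) : W 0 z = ww z := by simp [W, pp]

lemma W_deriv (s : ℕ) (z : ℝ) : HasDerivAt (W s) (W (s + 1) z) z := by
  have h1 : HasDerivAt (W s) (-(uu z * ww z) * (pp s).eval (uu z) +
      ww z * ((derivative (pp s)).eval (uu z) * (uu z ^ 3 - uu z ^ 2))) z :=
    (ww_deriv z).mul (((pp s).hasDerivAt (uu z)).comp z (uu_deriv z))
  have h2 : -(uu z * ww z) * (pp s).eval (uu z) +
      ww z * ((derivative (pp s)).eval (uu z) * (uu z ^ 3 - uu z ^ 2)) = W (s + 1) z := by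
    unfold W
    rw [pp]
    simp only [eval_add, eval_neg, eval_mul, eval_sub, eval_X, eval_pow]
    ring
  rw [h2] at h1
  exact h1

lemma ww_tendsto : Tendsto ww atTop (𝓝 0) :=
  Real.tendsto_exp_neg_atTop_nhds_zero.comp xi_tendsto

lemma zw_tendsto : Tendsto (fun z => z * ww z) atTop (𝓝 1) := by
  have h1 : ∀ z, z * ww z = 1 - ww z * Real.log (ww z) := by
    intro z
    have h := ww_eq z
    have hw := ww_pos z
    have h2 : z * ww z = (1 / ww z - Real.log (ww z)) * ww z := by rw [h]
    rw [h2]
    field_simp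
  simp only [h1]
  have h2 : Tendsto (fun x : ℝ => x * Real.log x) (𝓝 0) (𝓝 0) := by
    have := Real.continuous_mul_log.tendsto 0
    simpa using this
  have h3 := h2.comp ww_tendsto
  have h4 := (tendsto_const_nhds (x := (1 : ℝ)) (f := atTop)).sub h3
  simpa using h4

lemma uu_tendsto : Tendsto uu atTop (𝓝 0) := by
  have h := ww_tendsto.div (ww_tendsto.const_add 1) (by norm_num)
  rw [add_zero, div_one] at h
  exact h.congr fun z => rfl

lemma zu_tendsto : Tendsto (fun z => z * uu z) atTop (𝓝 1) := by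
  have h := zw_tendsto.div (ww_tendsto.const_add 1) (by norm_num)
  have h1 : ∀ z, z * ww z / (1 + ww z) = z * uu z := fun z => by
    unfold uu
    rw [mul_div_assoc]
  rw [add_zero, div_one] at h
  exact h.congr h1

/-- **asymptotics of the derivatives of `w`** -/
lemma W_tendsto (s : ℕ) : Tendsto (fun z => z ^ (s + 1) * W s z) atTop (𝓝 ((-1) ^ s * s.factorial)) := by
  have h1 : ∀ z, z ^ (s + 1) * W s z = z * ww z * (z * uu z) ^ s * (qq s).eval (uu z) := by
    intro z
    unfold W
    rw [pp_eq]
    simp only [eval_mul, eval_pow, eval_X]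
    ring
  simp only [h1]
  have h2 : Tendsto (fun z => (qq s).eval (uu z)) atTop (𝓝 ((qq s).eval 0)) :=
    ((qq s).continuous.tendsto 0).comp uu_tendsto
  have h3 := (zw_tendsto.mul (zu_tendsto.pow s)).mul h2
  rw [qq_zero] at h3
  simpa using h3

end Pool.Agent.K7.H75.DP
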